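import Mathlib

set_option autoImplicit false
set_option maxHeartbeats 1000000

open Classical Filter Topology

namespace Pool.Agent.Results.MP_572a82_pr.FragmentSize

section Basic

variable {V : Type*}

/-- Add the edge `uv`. -/
abbrev addE (G : SimpleGraph V) (u v : V) : SimpleGraph V := G ⊔ SimpleGraph.edge u v

/-- Delete the edge `uv`. -/
def delE (G : SimpleGraph V) (u v : V) : SimpleGraph V where
  Adj a b := G.Adj a b ∧ ¬ (a = u ∧ b = v) ∧ ¬ (a = v ∧ b = u)
  symm := ⟨fun a b h => ⟨h.1.symm, fun h' => h.2.2 ⟨h'.2, h'.1⟩, fun h' => h.2.1 ⟨h'.2, h'.1⟩⟩⟩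
  loopless := ⟨fun a h => G.loopless.irrefl a h.1⟩

/-- Delete all edges at the vertex `x`. -/
def delV (G : SimpleGraph V) (x : V) : SimpleGraph V where
  Adj a b := G.Adj a b ∧ a ≠ x ∧ b ≠ x
  symm := ⟨fun a b h => ⟨h.1.symm, h.2.2, h.2.1⟩⟩
  loopless := ⟨fun a h => G.loopless.irrefl a h.1⟩

lemma addE_adj {G : SimpleGraph V} {u v a b : V} :
    (addE G u v).Adj a b ↔ G.Adj a b ∨ ((a = u ∧ b = v ∨ a = v ∧ b = u) ∧ a ≠ b) := by
  simp [addE, SimpleGraph.sup_adj, SimpleGraph.edge_adj]

lemma delV_le (G : SimpleGraph V) (x : V) : delV G x ≤ G := fun _ _ h => h.1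

lemma delE_le (G : SimpleGraph V) (u v : V) : delE G u v ≤ G := fun _ _ h => h.1

lemma delV_le_delE (G : SimpleGraph V) (u v : V) : delV G u ≤ delE G u v := by
  intro a b h
  exact ⟨h.1, fun h' => h.2.1 h'.1, fun h' => h.2.2 h'.2⟩

lemma delE_comm (G : SimpleGraph V) (u v : V) : delE G u v = delE G v u := by
  ext a b
  simp only [delE]
  tauto

lemma delV_mono {G H : SimpleGraph V} (h : G ≤ H) (x : V) : delV G x ≤ delV H x :=
  fun _ _ h' => ⟨h h'.1, h'.2⟩

lemma le_addE (G : SimpleGraph V) (u v : V) : G ≤ addE G u v := le_sup_left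

/-- L1: reachability avoiding a non-reachable vertex -/
lemma reach_delV {H : SimpleGraph V} {a b v : V} (h : H.Reachable a b) (hv : ¬ H.Reachable a v) :
    (delV H v).Reachable a b := by
  obtain ⟨p⟩ := h
  induction p with
  | nil => exact SimpleGraph.Reachable.refl _
  | @cons a c b hac p ih =>
    have hcv : ¬ H.Reachable c v := fun h => hv (hac.reachable.trans h)
    have h1 : (delV H v).Adj a c := by
      refine ⟨hac, ?_, ?_⟩
      · rintro rfl
        exact hv (SimpleGraph.Reachable.refl _)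
      · rintro rfl
        exact hv hac.reachable
    exact h1.reachable.trans (ih hcv)

/-- L2 -/
lemma reach_swap {G : SimpleGraph V} {w x x' : V} (h : G.Reachable w x) (hxx : x' ≠ x)
    (hn : ¬ (delV G x).Reachable w x') : (delV G x').Reachable w x := by
  obtain ⟨p⟩ := h
  induction p with
  | nil => exact SimpleGraph.Reachable.refl _
  | @cons w c x hwc p ih =>
    by_cases hwx : w = x
    · subst hwx
      exact SimpleGraph.Reachable.refl _
    have hwx' : w ≠ x' := by
      rintro rfl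
      exact hn (SimpleGraph.Reachable.refl _)
    by_cases hcx : c = x
    · subst hcx
      have : (delV G x').Adj w c := ⟨hwc, hwx', hxx.symm⟩
      exact this.reachable
    · have h1 : (delV G x).Adj w c := ⟨hwc, hwx, hcx⟩
      have hn' : ¬ (delV G x).Reachable c x' := fun h => hn (h1.reachable.trans h)
      have hcx' : c ≠ x' := by
        rintro rfl
        exact hn' (SimpleGraph.Reachable.refl _)
      have h2 : (delV G x').Adj w c := ⟨hwc, hwx', hcx'⟩
      exact h2.reachable.trans (ih hxx hn')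

/-- L3 -/
lemma reach_or {G : SimpleGraph V} {u x1 x2 : V} (h1 : G.Reachable u x1) (hne : x1 ≠ x2) :
    (delV G x2).Reachable u x1 ∨ (delV G x1).Reachable u x2 := by
  by_cases h : (delV G x1).Reachable u x2
  · exact Or.inr h
  · exact Or.inl (reach_swap h1 hne.symm h)

/-- A2 -/
lemma reach_addE {G : SimpleGraph V} {u v a b : V} (h : (addE G u v).Reachable a b) :
    G.Reachable a b ∨ (G.Reachable a u ∧ G.Reachable v b) ∨ (G.Reachable a v ∧ G.Reachable u b) := by
  obtain ⟨p⟩ := h
  induction p with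
  | nil => exact Or.inl (SimpleGraph.Reachable.refl _)
  | @cons a c b hac p ih =>
    rw [addE_adj] at hac
    rcases hac with hac | ⟨⟨rfl, rfl⟩ | ⟨rfl, rfl⟩, -⟩
    · rcases ih with h | ⟨h1, h2⟩ | ⟨h1, h2⟩
      · exact Or.inl (hac.reachable.trans h)
      · exact Or.inr (Or.inl ⟨hac.reachable.trans h1, h2⟩)
      · exact Or.inr (Or.inr ⟨hac.reachable.trans h1, h2⟩)
    · rcases ih with h | ⟨h1, h2⟩ | ⟨h1, h2⟩
      · exact Or.inr (Or.inl ⟨SimpleGraph.Reachable.refl _, h⟩)
      · exact Or.inr (Or.inl ⟨SimpleGraph.Reachable.refl _, h2⟩)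
      · exact Or.inl h2
    · rcases ih with h | ⟨h1, h2⟩ | ⟨h1, h2⟩
      · exact Or.inr (Or.inr ⟨SimpleGraph.Reachable.refl _, h⟩)
      · exact Or.inl h2
      · exact Or.inr (Or.inr ⟨SimpleGraph.Reachable.refl _, h2⟩)

lemma delE_addE {G : SimpleGraph V} {u v : V} (h : ¬ G.Reachable u v) :
    delE (addE G u v) u v = G := by
  ext a b
  simp only [delE, addE_adj]
  constructor
  · rintro ⟨h1 | ⟨h1, -⟩, h2, h3⟩
    · exact h1
    · tauto
  · intro hab
    refine ⟨Or.inl hab, ?_, ?_⟩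
    · rintro ⟨rfl, rfl⟩
      exact h hab.reachable
    · rintro ⟨rfl, rfl⟩
      exact h hab.symm.reachable

/-- `uv` is a bridge of `G`. -/
def isBr (G : SimpleGraph V) (u v : V) : Prop := G.Adj u v ∧ ¬ (delE G u v).Reachable u v

lemma isBr_addE {G : SimpleGraph V} {u v : V} (h : ¬ G.Reachable u v) : isBr (addE G u v) u v := by
  refine ⟨?_, ?_⟩
  · rw [addE_adj]
    refine Or.inr ⟨Or.inl ⟨rfl, rfl⟩, ?_⟩
    rintro rfl
    exact h (SimpleGraph.Reachable.refl _)
  · rw [delE_addE h]
    exact h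

lemma addE_delE {G : SimpleGraph V} {u v : V} (h : G.Adj u v) : addE (delE G u v) u v = G := by
  ext a b
  rw [addE_adj]
  simp only [delE]
  constructor
  · rintro (h1 | ⟨⟨rfl, rfl⟩ | ⟨rfl, rfl⟩, -⟩)
    · exact h1.1
    · exact h
    · exact h.symm
  · intro hab
    by_cases h1 : a = u ∧ b = v ∨ a = v ∧ b = u
    · exact Or.inr ⟨h1, hab.ne⟩
    · exact Or.inl ⟨hab, fun h' => h1 (Or.inl h'), fun h' => h1 (Or.inr h')⟩

lemma isBr_symm {G : SimpleGraph V} {u v : V} (h : isBr G u v) : isBr G v u := by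
  refine ⟨h.1.symm, ?_⟩
  rw [delE_comm]
  exact fun h' => h.2 h'.symm

/-- the side containing the root -/
lemma reach_delE_of {G : SimpleGraph V} {u v r : V} (h : isBr G u v) (hr : G.Reachable r v)
    (hn : ¬ (delE G u v).Reachable r v) : (delE G u v).Reachable r u := by
  have h1 : (addE (delE G u v) u v).Reachable r v := by rw [addE_delE h.1]; exact hr
  rcases reach_addE h1 with h2 | ⟨h2, -⟩ | ⟨h2, h3⟩
  · exact absurd h2 hn
  · exact h2
  · exact absurd h2 hn

variable [Fintype V]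

/-- order of the component of `u` -/
noncomputable def cs (G : SimpleGraph V) (u : V) : ℕ := (Finset.univ.filter fun w => G.Reachable u w).card

lemma cs_mono {G H : SimpleGraph V} (h : G ≤ H) (u : V) : cs G u ≤ cs H u := by
  apply Finset.card_le_card
  intro w hw
  simp only [Finset.mem_filter, Finset.mem_univ, true_and] at hw ⊢
  exact hw.mono h

lemma cs_eq {G : SimpleGraph V} {u v : V} (h : G.Reachable u v) : cs G u = cs G v := by
  unfold cs
  congr 1
  ext w
  simp only [Finset.mem_filter, Finset.mem_univ, true_and]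
  exact ⟨fun h' => h.symm.trans h', fun h' => h.trans h'⟩

lemma cs_le (G : SimpleGraph V) (u : V) : cs G u ≤ Fintype.card V := by
  unfold cs
  exact (Finset.card_le_univ _)

/-- the number of ordered bridges is at most `2n` -/
lemma card_bridges (G : SimpleGraph V) :
    (Finset.univ.filter fun p : V × V => isBr G p.1 p.2).card ≤ 2 * Fintype.card V := by
  -- root of a component
  let root : V → V := fun v => (G.connectedComponentMk v).out
  have hroot : ∀ v, G.Reachable (root v) v := by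
    intro v
    exact SimpleGraph.ConnectedComponent.exact (Quot.out_eq (G.connectedComponentMk v))
  have hroot2 : ∀ u v, G.Reachable u v → root u = root v := by
    intro u v h
    simp only [root]
    rw [SimpleGraph.ConnectedComponent.sound h]
  set S := Finset.univ.filter fun p : V × V => isBr G p.1 p.2 with hS
  set S1 := S.filter fun p => ¬ (delE G p.1 p.2).Reachable (root p.2) p.2 with hS1
  set S2 := S.filter fun p => ¬ (delE G p.1 p.2).Reachable (root p.1) p.1 with hS2
  have hsub : S ⊆ S1 ∪ S2 := by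
    intro p hp
    rw [Finset.mem_union]
    by_cases h1 : (delE G p.1 p.2).Reachable (root p.2) p.2
    · right
      refine Finset.mem_filter.2 ⟨hp, ?_⟩
      intro h2
      simp only [hS, Finset.mem_filter, Finset.mem_univ, true_and] at hp
      rw [hroot2 p.1 p.2 hp.1.reachable] at h2
      exact hp.2 (h2.symm.trans h1)
    · left
      exact Finset.mem_filter.2 ⟨hp, h1⟩
  have hc1 : S1.card ≤ Fintype.card V := by
    rw [← Finset.card_univ]
    apply Finset.card_le_card_of_injOn (fun p => p.2) (fun _ _ => Finset.mem_univ _)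
    rintro ⟨u, v⟩ h1 ⟨u', v'⟩ h2 heq
    simp only at heq
    subst heq
    simp only [hS1, hS, Finset.coe_filter, Finset.mem_filter, Finset.mem_univ, true_and, Set.mem_ofPred_eq] at h1 h2
    by_contra hne
    have huu : u ≠ u' := fun h => hne (by rw [h])
    obtain ⟨hb1, hn1⟩ := h1
    obtain ⟨hb2, hn2⟩ := h2
    have hr : (delE G u v).Reachable (root v) u := reach_delE_of hb1 (hroot v) hn1
    have hr2 := reach_delV hr hn1
    have hle : delV (delE G u v) v ≤ delE G u' v := by
      intro a b hab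
      obtain ⟨⟨h1, -⟩, h2, h3⟩ := hab
      exact ⟨h1, fun h => h3 h.2, fun h => h2 h.1⟩
    have hr3 := hr2.mono hle
    have hadj : (delE G u' v).Adj u v := ⟨hb1.1, fun h => huu h.1, fun h => hb1.1.ne h.1⟩
    exact hn2 (hr3.trans hadj.reachable)
  have hc2 : S2.card ≤ Fintype.card V := by
    rw [← Finset.card_univ]
    apply Finset.card_le_card_of_injOn (fun p => p.1) (fun _ _ => Finset.mem_univ _)
    rintro ⟨v, u⟩ h1 ⟨v', u'⟩ h2 heq
    simp only at heq
    subst heq
    simp only [hS2, hS, Finset.coe_filter, Finset.mem_filter, Finset.mem_univ, true_and, Set.mem_ofPred_eq] at h1 h2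
    by_contra hne
    have huu : u ≠ u' := fun h => hne (by rw [h])
    obtain ⟨hb1, hn1⟩ := h1
    obtain ⟨hb2, hn2⟩ := h2
    replace hb1 := isBr_symm hb1
    replace hb2 := isBr_symm hb2
    rw [delE_comm] at hn1 hn2
    have hr : (delE G u v).Reachable (root v) u := reach_delE_of hb1 (hroot v) hn1
    have hr2 := reach_delV hr hn1
    have hle : delV (delE G u v) v ≤ delE G u' v := by
      intro a b hab
      obtain ⟨⟨h1, -⟩, h2, h3⟩ := hab
      exact ⟨h1, fun h => h3 h.2, fun h => h2 h.1⟩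
    have hr3 := hr2.mono hle
    have hadj : (delE G u' v).Adj u v := ⟨hb1.1, fun h => huu h.1, fun h => hb1.1.ne h.1⟩
    exact hn2 (hr3.trans hadj.reachable)
  calc S.card ≤ (S1 ∪ S2).card := Finset.card_le_card hsub
    _ ≤ S1.card + S2.card := Finset.card_union_le _ _
    _ ≤ 2 * Fintype.card V := by omega

/-- pairwise separated vertices with large components -/
lemma card_sep (H : SimpleGraph V) (k : ℕ) (S : Finset V)
    (h1 : ∀ v ∈ S, k ≤ cs H v) (h2 : ∀ v ∈ S, ∀ w ∈ S, v ≠ w → ¬ H.Reachable v w) :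
    S.card * k ≤ Fintype.card V := by
  have hd : ∀ v ∈ S, ∀ w ∈ S, v ≠ w → Disjoint (Finset.univ.filter fun x => H.Reachable v x)
      (Finset.univ.filter fun x => H.Reachable w x) := by
    intro v hv w hw hvw
    rw [Finset.disjoint_left]
    intro x hx hx'
    simp only [Finset.mem_filter, Finset.mem_univ, true_and] at hx hx'
    exact h2 v hv w hw hvw (hx.trans hx'.symm)
  have h3 : (S.biUnion fun v => Finset.univ.filter fun x => H.Reachable v x).card =
      ∑ v ∈ S, cs H v := by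
    rw [Finset.card_biUnion]
    · rfl
    · intro v hv w hw hvw
      exact hd v hv w hw hvw
  have h4 : S.card * k ≤ ∑ v ∈ S, cs H v := by
    rw [← smul_eq_mul, ← Finset.sum_const]
    exact Finset.sum_le_sum h1
  calc S.card * k ≤ ∑ v ∈ S, cs H v := h4
    _ = _ := h3.symm
    _ ≤ Fintype.card V := Finset.card_le_univ _

omit [Fintype V] in
lemma side_reach {G : SimpleGraph V} {u v w : V} (h : isBr G u v)
    (hw : (delE G u v).Reachable v w) : (delV G u).Reachable v w :=
  (reach_delV hw (fun h' => h.2 h'.symm)).mono (delV_mono (delE_le G u v) u)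

lemma cs_side {G : SimpleGraph V} {u v : V} (h : isBr G u v) :
    cs (delE G u v) v ≤ cs (delV G u) v := by
  apply Finset.card_le_card
  intro w hw
  simp only [Finset.mem_filter, Finset.mem_univ, true_and] at hw ⊢
  exact side_reach h hw

/-- F5 -/
lemma card_nbr (G : SimpleGraph V) (k : ℕ) (u : V) :
    (Finset.univ.filter fun v => isBr G u v ∧ k ≤ cs (delE G u v) v).card * k ≤ Fintype.card V := by
  apply card_sep (delV G u)
  · intro v hv
    simp only [Finset.mem_filter, Finset.mem_univ, true_and] at hv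
    exact hv.2.trans (cs_side hv.1)
  · intro v hv w hw hvw h
    simp only [Finset.mem_filter, Finset.mem_univ, true_and] at hv hw
    have h1 := h.mono (delV_le_delE G u v)
    have h2 : (delE G u v).Adj w u := ⟨hw.1.1.symm, fun h' => hw.1.1.ne h'.1.symm, fun h' => hvw h'.1.symm⟩
    exact hv.1.2 (h1.trans h2.reachable).symm

/-- `y` lies in a component of `G - x` of order at least `k`. -/
def B1 (G : SimpleGraph V) (k : ℕ) (x y : V) : Prop := y ≠ x ∧ G.Reachable x y ∧ k ≤ cs (delV G x) y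

/-- `G - x` has two big components -/
def N2 (G : SimpleGraph V) (k : ℕ) (x : V) : Prop :=
  ∃ y z, B1 G k x y ∧ B1 G k x z ∧ ¬ (delV G x).Reachable y z

/-- `G - x` has three big components -/
def N3 (G : SimpleGraph V) (k : ℕ) (x : V) : Prop :=
  ∃ y1 y2 y3, B1 G k x y1 ∧ B1 G k x y2 ∧ B1 G k x y3 ∧
    ¬ (delV G x).Reachable y1 y2 ∧ ¬ (delV G x).Reachable y1 y3 ∧ ¬ (delV G x).Reachable y2 y3

/-- size of a component inside `U` -/
noncomputable def cU (H : SimpleGraph V) (U : Finset V) (y : V) : ℕ :=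
  (U.filter fun w => H.Reachable y w).card

def B1U (G : SimpleGraph V) (k : ℕ) (U : Finset V) (x y : V) : Prop :=
  y ≠ x ∧ G.Reachable x y ∧ k ≤ cU (delV G x) U y

def N3U (G : SimpleGraph V) (k : ℕ) (U : Finset V) (x : V) : Prop :=
  ∃ y1 y2 y3, B1U G k U x y1 ∧ B1U G k U x y2 ∧ B1U G k U x y3 ∧
    ¬ (delV G x).Reachable y1 y2 ∧ ¬ (delV G x).Reachable y1 y3 ∧ ¬ (delV G x).Reachable y2 y3

lemma cU_swap {G : SimpleGraph V} {U : Finset V} {x x' y1 y2 : V} (hxx : x' ≠ x)
    (h1 : G.Reachable x y1) (h2 : G.Reachable x y2)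
    (hn1 : ¬ (delV G x).Reachable y1 x') (hn2 : ¬ (delV G x).Reachable y2 x')
    (h12 : ¬ (delV G x).Reachable y1 y2) :
    cU (delV G x) U y1 + cU (delV G x) U y2 ≤ cU (delV G x') U x := by
  have key : ∀ y w, G.Reachable x y → ¬ (delV G x).Reachable y x' → (delV G x).Reachable y w →
      (delV G x').Reachable x w := by
    intro y w hy hn hw
    have : G.Reachable w x := (hy.trans (hw.mono (delV_le G x))).symm
    exact (reach_swap this hxx (fun h => hn (hw.trans h))).symm
  unfold cU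
  rw [← Finset.card_union_of_disjoint]
  · apply Finset.card_le_card
    intro w hw
    rw [Finset.mem_union, Finset.mem_filter, Finset.mem_filter] at hw
    rw [Finset.mem_filter]
    rcases hw with ⟨hw, hw'⟩ | ⟨hw, hw'⟩
    · exact ⟨hw, key y1 w h1 hn1 hw'⟩
    · exact ⟨hw, key y2 w h2 hn2 hw'⟩
  · rw [Finset.disjoint_left]
    intro w hw hw'
    rw [Finset.mem_filter] at hw hw'
    exact h12 (hw.2.trans hw'.2.symm)

/-- F1, general form -/
lemma card_N3U (G : SimpleGraph V) (k : ℕ) (hk : 1 ≤ k) : ∀ (t : ℕ) (T U : Finset V), T.card = t →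
    (∀ x ∈ T, N3U G k U x) → T.card * k ≤ U.card := by
  intro t
  induction t with
  | zero =>
    intro T U hT _
    rw [hT]
    omega
  | succ t ih =>
    intro T U hT hN
    -- choose the maximal pair
    let PS : Finset (V × V) := (T ×ˢ (Finset.univ : Finset V)).filter fun p => p.2 ≠ p.1 ∧ G.Reachable p.1 p.2
    have hTne : T.Nonempty := by
      rw [← Finset.card_pos, hT]
      omega
    have hPS : PS.Nonempty := by
      obtain ⟨x, hx⟩ := hTne
      obtain ⟨y1, y2, y3, hy1, -⟩ := hN x hx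
      refine ⟨(x, y1), ?_⟩
      simp only [PS, Finset.mem_filter, Finset.mem_product, Finset.mem_univ, and_true]
      exact ⟨hx, hy1.1, hy1.2.1⟩
    obtain ⟨⟨x0, y0⟩, hp0, hmax⟩ := Finset.exists_max_image PS
      (fun p => cU (delV G p.1) U p.2) hPS
    simp only [PS, Finset.mem_filter, Finset.mem_product, Finset.mem_univ, and_true] at hp0
    obtain ⟨hx0, hy0x0, hr0⟩ := hp0
    have hmax' : ∀ x ∈ T, ∀ y, y ≠ x → G.Reachable x y →
        cU (delV G x) U y ≤ cU (delV G x0) U y0 := by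
      intro x hx y hyx hxy
      apply hmax (x, y)
      simp only [PS, Finset.mem_filter, Finset.mem_product, Finset.mem_univ, and_true]
      exact ⟨hx, hyx, hxy⟩
    obtain ⟨y1, y2, y3, b1, b2, b3, n12, n13, n23⟩ := hN x0 hx0
    -- a big component different from two given ones
    have third : ∀ a b : V, ∃ y, B1U G k U x0 y ∧ ¬ (delV G x0).Reachable y a ∧
        ¬ (delV G x0).Reachable y b := by
      intro a b
      by_cases h1 : (delV G x0).Reachable y1 a ∨ (delV G x0).Reachable y1 b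
      · by_cases h2 : (delV G x0).Reachable y2 a ∨ (delV G x0).Reachable y2 b
        · refine ⟨y3, b3, ?_, ?_⟩
          · intro h3
            rcases h1 with h1 | h1 <;> rcases h2 with h2 | h2
            · exact n12 (h1.trans h2.symm)
            · exact n13 (h1.trans h3.symm)
            · exact n23 (h2.trans h3.symm)
            · exact n12 (h1.trans h2.symm)
          · intro h3
            rcases h1 with h1 | h1 <;> rcases h2 with h2 | h2
            · exact n12 (h1.trans h2.symm)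
            · exact n23 (h2.trans h3.symm)
            · exact n13 (h1.trans h3.symm)
            · exact n12 (h1.trans h2.symm)
        · push Not at h2
          exact ⟨y2, b2, h2.1, h2.2⟩
      · push Not at h1
        exact ⟨y1, b1, h1.1, h1.2⟩
    -- other elements of T lie in the component of y0
    have hin : ∀ x' ∈ T, x' ≠ x0 → G.Reachable x0 x' → (delV G x0).Reachable y0 x' := by
      intro x' hx' hne hr
      by_contra hcon
      obtain ⟨y, hy, hya, hyb⟩ := third y0 x'
      have h1 := cU_swap (U := U) hne hr0 hy.2.1 hcon hyb (fun h => hya h.symm)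
      have h2 := hmax' x' hx' x0 hne.symm hr.symm
      have h3 := hy.2.2
      omega
    obtain ⟨z1, hz1, hz1y, -⟩ := third y0 y0
    obtain ⟨z2, hz2, hz2y, hz21⟩ := third y0 z1
    let D : Finset V := U.filter fun w => (delV G x0).Reachable z1 w
    have hDc : k ≤ D.card := hz1.2.2
    have hDU : D ⊆ U := Finset.filter_subset _ _
    have hT' : (T.erase x0).card = t := by
      rw [Finset.card_erase_of_mem hx0, hT]
      rfl
    have hrec := ih (T.erase x0) (U \ D) hT' ?_
    · rw [Finset.card_sdiff_of_subset hDU] at hrec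
      have h5 : D.card ≤ U.card := Finset.card_le_card hDU
      rw [hT'] at hrec
      rw [hT, Nat.add_mul, Nat.one_mul]
      omega
    · intro x' hx'
      rw [Finset.mem_erase] at hx'
      obtain ⟨hne, hx'T⟩ := hx'
      obtain ⟨w1, w2, w3, c1, c2, c3, m12, m13, m23⟩ := hN x' hx'T
      have key : ∀ w, B1U G k U x' w → B1U G k (U \ D) x' w := by
        intro w hw
        refine ⟨hw.1, hw.2.1, ?_⟩
        by_cases hdis : ∃ q ∈ D, (delV G x').Reachable w q
        · obtain ⟨q, hqD, hwq⟩ := hdis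
          rw [Finset.mem_filter] at hqD
          -- x' is in the component of x0
          have hrq : G.Reachable x0 q := hz1.2.1.trans (hqD.2.mono (delV_le G x0))
          have hr : G.Reachable x0 x' :=
            (hrq.trans (hwq.mono (delV_le G x')).symm).trans hw.2.1.symm
          have hx'y0 := hin x' hx'T hne hr
          have hn1 : ¬ (delV G x0).Reachable q x' := fun h =>
            hz1y ((hqD.2.trans h).trans hx'y0.symm)
          have h6 : (delV G x').Reachable q x0 := reach_swap hrq.symm hne hn1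
          have h7 : (delV G x').Reachable w x0 := hwq.trans h6
          have hsub : (U.filter fun p => (delV G x0).Reachable z2 p) ⊆
              ((U \ D).filter fun p => (delV G x').Reachable w p) := by
            intro p hp
            rw [Finset.mem_filter] at hp
            rw [Finset.mem_filter, Finset.mem_sdiff]
            refine ⟨⟨hp.1, ?_⟩, ?_⟩
            · intro hpD
              rw [Finset.mem_filter] at hpD
              exact hz21 (hp.2.trans hpD.2.symm)
            · have hrp : G.Reachable p x0 := (hz2.2.1.trans (hp.2.mono (delV_le G x0))).symm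
              have hn2 : ¬ (delV G x0).Reachable p x' := fun h =>
                hz2y ((hp.2.trans h).trans hx'y0.symm)
              exact h7.trans (reach_swap hrp hne hn2).symm
          exact hz2.2.2.trans (Finset.card_le_card hsub)
        · push Not at hdis
          refine hw.2.2.trans ?_
          apply Finset.card_le_card
          intro p hp
          rw [Finset.mem_filter] at hp
          rw [Finset.mem_filter, Finset.mem_sdiff]
          exact ⟨⟨hp.1, fun h => hdis p h hp.2⟩, hp.2⟩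
      exact ⟨w1, w2, w3, key w1 c1, key w2 c2, key w3 c3, m12, m13, m23⟩

/-- F1 -/
lemma card_N3 (G : SimpleGraph V) (k : ℕ) (hk : 1 ≤ k) :
    (Finset.univ.filter fun x => N3 G k x).card * k ≤ Fintype.card V := by
  rw [← Finset.card_univ]
  refine card_N3U G k hk _ _ Finset.univ rfl ?_
  intro x hx
  simp only [Finset.mem_filter, Finset.mem_univ, true_and] at hx
  exact hx

/-- vertices whose removal leaves `u` in a small component -/
lemma card_small (G : SimpleGraph V) (k : ℕ) (u : V) :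
    (Finset.univ.filter fun x => x ≠ u ∧ G.Reachable u x ∧ cs (delV G x) u < k).card ≤ 2 * k := by
  set S := Finset.univ.filter fun x => x ≠ u ∧ G.Reachable u x ∧ cs (delV G x) u < k with hS
  -- double counting
  have h1 : (S.offDiag).card ≤ 2 * (∑ x ∈ S, (S.filter fun y => (delV G x).Reachable u y).card) := by
    let P1 : Finset (V × V) := (S ×ˢ S).filter fun p => (delV G p.1).Reachable u p.2
    let P2 : Finset (V × V) := (S ×ˢ S).filter fun p => (delV G p.2).Reachable u p.1
    have hsub : S.offDiag ⊆ P1 ∪ P2 := by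
      intro p hp
      rw [Finset.mem_offDiag] at hp
      obtain ⟨hp1, hp2, hne⟩ := hp
      have hp1' := hp1
      simp only [hS, Finset.mem_filter, Finset.mem_univ, true_and] at hp1'
      rw [Finset.mem_union]
      rcases reach_or hp1'.2.1 hne with h | h
      · right
        exact Finset.mem_filter.2 ⟨Finset.mem_product.2 ⟨hp1, hp2⟩, h⟩
      · left
        exact Finset.mem_filter.2 ⟨Finset.mem_product.2 ⟨hp1, hp2⟩, h⟩
    have hP1 : P1.card = ∑ x ∈ S, (S.filter fun y => (delV G x).Reachable u y).card := by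
      simp only [P1, Finset.card_filter]
      rw [Finset.sum_product]
    have hP2 : P2.card = ∑ x ∈ S, (S.filter fun y => (delV G x).Reachable u y).card := by
      simp only [P2, Finset.card_filter]
      rw [Finset.sum_product_right]
    calc (S.offDiag).card ≤ (P1 ∪ P2).card := Finset.card_le_card hsub
      _ ≤ P1.card + P2.card := Finset.card_union_le _ _
      _ = _ := by rw [hP1, hP2]; ring
  have h2 : ∑ x ∈ S, (S.filter fun y => (delV G x).Reachable u y).card ≤ S.card * (k - 1) := by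
    rw [← smul_eq_mul, ← Finset.sum_const]
    apply Finset.sum_le_sum
    intro x hx
    simp only [hS, Finset.mem_filter, Finset.mem_univ, true_and] at hx
    have h3 : (S.filter fun y => (delV G x).Reachable u y).card ≤ cs (delV G x) u := by
      apply Finset.card_le_card
      intro y hy
      rw [Finset.mem_filter] at hy
      simp only [Finset.mem_filter, Finset.mem_univ, true_and]
      exact hy.2
    omega
  rw [Finset.offDiag_card] at h1
  by_contra hcon
  push Not at hcon
  have h5 : S.card * S.card - S.card = S.card * (S.card - 1) := by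
    rw [Nat.mul_sub_one]
  rw [h5] at h1
  have h6 : S.card * (S.card - 1) ≤ S.card * (2 * (k - 1)) := by
    calc S.card * (S.card - 1) ≤ 2 * _ := h1
      _ ≤ 2 * (S.card * (k - 1)) := Nat.mul_le_mul_left 2 h2
      _ = _ := by ring
  have h7 : 0 < S.card := by omega
  have h8 := Nat.le_of_mul_le_mul_left h6 h7
  rcases Nat.eq_zero_or_pos k with hk | hk
  · obtain ⟨x, hx⟩ := Finset.card_pos.1 h7
    simp only [hS, Finset.mem_filter, Finset.mem_univ, true_and] at hx
    omega
  · omega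

omit [Fintype V] in
lemma delV_addE_self (G : SimpleGraph V) (u v : V) : delV (addE G u v) u = delV G u := by
  ext a b
  simp only [delV, addE_adj]
  constructor
  · rintro ⟨h1 | ⟨⟨h1, -⟩ | ⟨-, h1⟩, -⟩, h2, h3⟩
    · exact ⟨h1, h2, h3⟩
    · exact absurd h1 h2
    · exact absurd h1 h3
  · rintro ⟨h1, h2, h3⟩
    exact ⟨Or.inl h1, h2, h3⟩

omit [Fintype V] in
lemma delV_addE {G : SimpleGraph V} {u v x : V} (hu : x ≠ u) (hv : x ≠ v) :
    delV (addE G u v) x = addE (delV G x) u v := by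
  ext a b
  simp only [delV, addE_adj]
  constructor
  · rintro ⟨h1 | h1, h2, h3⟩
    · exact Or.inl ⟨h1, h2, h3⟩
    · exact Or.inr h1
  · rintro (⟨h1, h2, h3⟩ | ⟨⟨rfl, rfl⟩ | ⟨rfl, rfl⟩, h2⟩)
    · exact ⟨Or.inl h1, h2, h3⟩
    · exact ⟨Or.inr ⟨Or.inl ⟨rfl, rfl⟩, h2⟩, hu.symm, hv.symm⟩
    · exact ⟨Or.inr ⟨Or.inr ⟨rfl, rfl⟩, h2⟩, hv.symm, hu.symm⟩

omit [Fintype V] in
lemma addE_comm (G : SimpleGraph V) (u v : V) : addE G u v = addE G v u := by
  ext a b
  simp only [addE_adj]
  tauto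

lemma cs_le_delV {G : SimpleGraph V} {u v : V} (h : ¬ G.Reachable v u) : cs G v ≤ cs (delV G u) v := by
  apply Finset.card_le_card
  intro w hw
  simp only [Finset.mem_filter, Finset.mem_univ, true_and] at hw ⊢
  exact reach_delV hw h

/-- F4 -/
lemma n3_of {G : SimpleGraph V} {u v : V} {k1 k2 : ℕ} (h : ¬ G.Reachable u v) (hk : k2 ≤ k1)
    (hv : k1 ≤ cs G v) (hN : N2 G k2 u) : N3 (addE G u v) k2 u := by
  obtain ⟨y, z, hy, hz, hyz⟩ := hN
  have hb := isBr_addE h
  have hvu : ¬ G.Reachable v u := fun h' => h h'.symm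
  have hn : ∀ y, G.Reachable u y → ¬ (delV G u).Reachable y v := by
    intro y hy h'
    exact h (hy.trans (h'.mono (delV_le G u)))
  refine ⟨y, z, v, ⟨hy.1, hy.2.1.mono (le_addE G u v), ?_⟩,
    ⟨hz.1, hz.2.1.mono (le_addE G u v), ?_⟩, ⟨hb.1.ne.symm, hb.1.reachable, ?_⟩, ?_, ?_, ?_⟩
  · rw [delV_addE_self]; exact hy.2.2
  · rw [delV_addE_self]; exact hz.2.2
  · rw [delV_addE_self]; exact (hk.trans hv).trans (cs_le_delV hvu)
  · rw [delV_addE_self]; exact hyz
  · rw [delV_addE_self]; exact hn y hy.2.1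
  · rw [delV_addE_self]; exact hn z hz.2.1

/-- F3a -/
lemma n2_of {G : SimpleGraph V} {u v x : V} {k1 k2 : ℕ} (h : ¬ G.Reachable u v) (hk : k2 ≤ k1)
    (hux : G.Reachable u x) (hxu : x ≠ u) (hN : N2 (addE G u v) k1 x) :
    N2 G k2 x ∨ cs (delV G x) u < k2 := by
  have hxv : x ≠ v := by
    rintro rfl
    exact h hux
  have hd := delV_addE (G := G) hxu hxv
  -- choose the vertex not joined to u
  have hex : ∃ y, B1 (addE G u v) k1 x y ∧ ¬ (delV (addE G u v) x).Reachable y u := by
    obtain ⟨y, z, hy, hz, hyz⟩ := hN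
    by_cases h1 : (delV (addE G u v) x).Reachable y u
    · exact ⟨z, hz, fun h2 => hyz (h1.trans h2.symm)⟩
    · exact ⟨y, hy, h1⟩
  obtain ⟨y, ⟨hyx, hry, hcy⟩, hyu⟩ := hex
  rw [hd] at hcy hyu
  have huv : (addE (delV G x) u v).Adj u v := by
    rw [addE_adj]
    refine Or.inr ⟨Or.inl ⟨rfl, rfl⟩, ?_⟩
    rintro rfl
    exact h (SimpleGraph.Reachable.refl _)
  have hyv : ¬ (addE (delV G x) u v).Reachable y v := fun h' => hyu (h'.trans huv.symm.reachable)
  have hyu' : ¬ (delV G x).Reachable y u := fun h' => hyu (h'.mono (le_addE _ _ _))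
  have hyv' : ¬ (delV G x).Reachable y v := fun h' => hyv (h'.mono (le_addE _ _ _))
  have hcs : cs (addE (delV G x) u v) y ≤ cs (delV G x) y := by
    apply Finset.card_le_card
    intro w hw
    simp only [Finset.mem_filter, Finset.mem_univ, true_and] at hw ⊢
    rcases reach_addE hw with h1 | ⟨h1, -⟩ | ⟨h1, -⟩
    · exact h1
    · exact absurd h1 hyu'
    · exact absurd h1 hyv'
  have hxy : G.Reachable x y := by
    rcases reach_addE hry with h1 | ⟨-, h1⟩ | ⟨h1, -⟩
    · exact h1
    · exfalso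
      have h2 : ¬ G.Reachable v x := fun h' => h (hux.trans h'.symm)
      exact hyv' (reach_delV h1 h2).symm
    · exact absurd (hux.trans h1) h
  by_cases hc : cs (delV G x) u < k2
  · exact Or.inr hc
  · left
    push Not at hc
    exact ⟨y, u, ⟨hyx, hxy, (hk.trans hcy).trans hcs⟩, ⟨hxu.symm, hux.symm, hc⟩, hyu'⟩

/-- F3 -/
lemma card_N2_addE {G : SimpleGraph V} {u v : V} {k1 k2 : ℕ} (h : ¬ G.Reachable u v) (hk : k2 ≤ k1)
    (hno : ∀ w, k1 ≤ cs G w → G.Reachable w u ∨ G.Reachable w v) :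
    (Finset.univ.filter fun x => N2 (addE G u v) k1 x).card ≤
      (Finset.univ.filter fun x => G.Reachable u x ∧ N2 G k2 x).card +
      (Finset.univ.filter fun x => G.Reachable v x ∧ N2 G k2 x).card + (4 * k2 + 2) := by
  set A1 := Finset.univ.filter fun x => G.Reachable u x ∧ N2 G k2 x
  set A2 := Finset.univ.filter fun x => G.Reachable v x ∧ N2 G k2 x
  set A3 := Finset.univ.filter fun x => x ≠ u ∧ G.Reachable u x ∧ cs (delV G x) u < k2
  set A4 := Finset.univ.filter fun x => x ≠ v ∧ G.Reachable v x ∧ cs (delV G x) v < k2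
  have hsub : (Finset.univ.filter fun x => N2 (addE G u v) k1 x) ⊆
      (A1 ∪ A2) ∪ ((A3 ∪ A4) ∪ {u, v}) := by
    intro x hx
    simp only [Finset.mem_filter, Finset.mem_univ, true_and] at hx
    by_cases hxu : x = u
    · simp [hxu]
    by_cases hxv : x = v
    · simp [hxv]
    have h1 : G.Reachable u x ∨ G.Reachable v x := by
      by_contra hcon
      push Not at hcon
      obtain ⟨y, z, ⟨hyx, hry, hcy⟩, -⟩ := hx
      have h2 : cs (delV (addE G u v) x) y ≤ cs G x := by
        refine (cs_mono (delV_le _ _) y).trans ?_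
        rw [← cs_eq hry]
        apply Finset.card_le_card
        intro w hw
        simp only [Finset.mem_filter, Finset.mem_univ, true_and] at hw ⊢
        rcases reach_addE hw with h1 | ⟨h1, -⟩ | ⟨h1, -⟩
        · exact h1
        · exact absurd h1.symm hcon.1
        · exact absurd h1.symm hcon.2
      rcases hno x (hcy.trans h2) with h3 | h3
      · exact hcon.1 h3.symm
      · exact hcon.2 h3.symm
    rcases h1 with h1 | h1
    · rcases n2_of h hk h1 hxu hx with h2 | h2
      · simp [A1, h1, h2]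
      · simp [A3, h1, h2, hxu]
    · rw [addE_comm] at hx
      rcases n2_of (fun h' => h h'.symm) hk h1 hxv hx with h2 | h2
      · simp [A2, h1, h2]
      · simp [A4, h1, h2, hxv]
  have h3 : A3.card ≤ 2 * k2 := card_small G k2 u
  have h4 : A4.card ≤ 2 * k2 := card_small G k2 v
  have h5 : ({u, v} : Finset V).card ≤ 2 := Finset.card_le_two
  calc _ ≤ ((A1 ∪ A2) ∪ ((A3 ∪ A4) ∪ {u, v})).card := Finset.card_le_card hsub
    _ ≤ (A1 ∪ A2).card + ((A3 ∪ A4) ∪ {u, v}).card := Finset.card_union_le _ _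
    _ ≤ (A1.card + A2.card) + ((A3 ∪ A4).card + ({u, v} : Finset V).card) :=
      Nat.add_le_add (Finset.card_union_le _ _) (Finset.card_union_le _ _)
    _ ≤ (A1.card + A2.card) + ((A3.card + A4.card) + ({u, v} : Finset V).card) := by
      have := Finset.card_union_le A3 A4
      omega
    _ ≤ _ := by omega

/-- a bridge both sides of which are big -/
def Big (G : SimpleGraph V) (k : ℕ) (x y : V) : Prop :=
  isBr G x y ∧ k ≤ cs (delE G x y) x ∧ k ≤ cs (delE G x y) y

lemma Big.symm {G : SimpleGraph V} {k : ℕ} {x y : V} (h : Big G k x y) : Big G k y x := by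
  refine ⟨isBr_symm h.1, ?_, ?_⟩
  · rw [delE_comm]; exact h.2.2
  · rw [delE_comm]; exact h.2.1

/-- L4 -/
lemma n2_of_big {G : SimpleGraph V} {k : ℕ} {a b c d : V} (h1 : Big G k a b) (h2 : Big G k c d)
    (h3 : (delE G a b).Reachable a c) (h4 : (delE G c d).Reachable a d) : N2 G k a := by
  have hca : ¬ (delE G c d).Reachable c a := fun h => h2.1.2 (h.trans h4)
  refine ⟨c, b, ⟨?_, h3.mono (delE_le _ _ _), ?_⟩, ⟨h1.1.1.ne.symm, h1.1.1.reachable, ?_⟩, ?_⟩
  · rintro rfl
    exact h2.1.2 h4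
  · exact h2.2.1.trans ((cs_le_delV hca).trans (cs_mono (delV_mono (delE_le _ _ _) _) _))
  · exact h1.2.2.trans (cs_side h1.1)
  · intro h
    exact h1.1.2 (h3.trans (h.mono (delV_le_delE G a b)))

/-- L5 -/
lemma n2_of_two {G : SimpleGraph V} {k : ℕ} {x y x' y' : V} (h1 : Big G k x y) (h2 : Big G k x' y')
    (h3 : G.Reachable x x') (h4 : ¬ (x' = x ∧ y' = y)) (h5 : ¬ (x' = y ∧ y' = x)) :
    N2 G k x ∨ N2 G k y := by
  have hadj : (delE G x y).Adj x' y' := ⟨h2.1.1, h4, h5⟩
  -- a general step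
  have step : ∀ a b, Big G k a b → (delE G a b).Adj x' y' → G.Reachable a x' →
      (delE G a b).Reachable a x' → N2 G k a := by
    intro a b hab hadj hr hr2
    have h6 : (addE (delE G x' y') x' y').Reachable x' a := by
      rw [addE_delE h2.1.1]; exact hr.symm
    rcases reach_addE h6 with h7 | ⟨-, h7⟩ | ⟨h7, -⟩
    · have h8 := h2.symm
      refine n2_of_big hab h8 (hr2.trans hadj.reachable) ?_
      rw [delE_comm]; exact h7.symm
    · exact n2_of_big hab h2 hr2 h7.symm
    · exact absurd h7 h2.1.2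
  have h9 : (addE (delE G x y) x y).Reachable x x' := by
    rw [addE_delE h1.1.1]; exact h3
  rcases reach_addE h9 with h7 | ⟨-, h7⟩ | ⟨h7, -⟩
  · exact Or.inl (step x y h1 hadj h3 h7)
  · right
    refine step y x h1.symm ?_ (h1.1.1.symm.reachable.trans h3) ?_
    · rw [delE_comm]; exact hadj
    · rw [delE_comm]; exact h7
  · exact absurd h7 h1.1.2

noncomputable def MS (G : SimpleGraph V) (k : ℕ) : Finset (V × V) :=
  Finset.univ.filter fun p => Big G k p.1 p.2

/-- F2 -/
lemma card_MS {G : SimpleGraph V} {k : ℕ} (c0 : V) (h : ∀ x y, Big G k x y → G.Reachable c0 x) :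
    (MS G k).card * k ≤ 2 * k + 2 * ((Finset.univ.filter fun x => N2 G k x).card * Fintype.card V) := by
  set N := Finset.univ.filter fun x => N2 G k x
  set S1 := (MS G k).filter fun p => N2 G k p.1
  set S2 := (MS G k).filter fun p => N2 G k p.2
  set S0 := (MS G k).filter fun p => ¬ N2 G k p.1 ∧ ¬ N2 G k p.2
  have hsub : MS G k ⊆ (S1 ∪ S2) ∪ S0 := by
    intro p hp
    by_cases h1 : N2 G k p.1
    · simp [S1, hp, h1]
    by_cases h2 : N2 G k p.2
    · simp [S2, hp, h2]
    simp [S0, hp, h1, h2]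
  have hS1 : S1.card * k ≤ N.card * Fintype.card V := by
    have : S1.card ≤ ∑ x ∈ N, (Finset.univ.filter fun v => isBr G x v ∧ k ≤ cs (delE G x v) v).card := by
      rw [← Finset.card_sigma]
      apply Finset.card_le_card_of_injOn (fun p => (⟨p.1, p.2⟩ : Sigma fun _ : V => V))
      · rintro ⟨x, y⟩ hp
        simp only [S1, MS, Finset.coe_filter, Finset.mem_filter, Finset.mem_univ, true_and,
          Set.mem_ofPred_eq] at hp
        simp only [Finset.coe_sigma, Set.mem_sigma_iff, Finset.coe_filter, Finset.mem_univ, true_and,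
          Set.mem_ofPred_eq, N]
        exact ⟨hp.2, hp.1.1, hp.1.2.2⟩
      · rintro ⟨x, y⟩ _ ⟨x', y'⟩ _ heq
        simp only [Sigma.mk.injEq, heq_eq_eq] at heq
        rw [heq.1, heq.2]
    calc S1.card * k ≤ (∑ x ∈ N, (Finset.univ.filter fun v => isBr G x v ∧ k ≤ cs (delE G x v) v).card) * k :=
        Nat.mul_le_mul_right k this
      _ = ∑ x ∈ N, (Finset.univ.filter fun v => isBr G x v ∧ k ≤ cs (delE G x v) v).card * k := by
        rw [Finset.sum_mul]
      _ ≤ ∑ x ∈ N, Fintype.card V := Finset.sum_le_sum fun x _ => card_nbr G k x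
      _ = _ := by rw [Finset.sum_const, smul_eq_mul]
  have hS2 : S2.card ≤ S1.card := by
    apply Finset.card_le_card_of_injOn (fun p => (p.2, p.1))
    · rintro ⟨x, y⟩ hp
      simp only [S2, MS, Finset.coe_filter, Finset.mem_filter, Finset.mem_univ, true_and,
        Set.mem_ofPred_eq] at hp
      simp only [S1, MS, Finset.coe_filter, Finset.mem_filter, Finset.mem_univ, true_and,
        Set.mem_ofPred_eq]
      exact ⟨hp.1.symm, hp.2⟩
    · rintro ⟨x, y⟩ _ ⟨x', y'⟩ _ heq
      simp only [Prod.mk.injEq] at heq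
      rw [heq.1, heq.2]
  have hS0 : S0.card ≤ 2 := by
    rcases S0.eq_empty_or_nonempty with h0 | ⟨⟨x, y⟩, hp⟩
    · rw [h0]; simp
    · have hsub0 : S0 ⊆ {(x, y), (y, x)} := by
        rintro ⟨x', y'⟩ hq
        simp only [S0, MS, Finset.mem_filter, Finset.mem_univ, true_and] at hp hq
        by_contra hcon
        simp only [Finset.mem_insert, Finset.mem_singleton, Prod.mk.injEq, not_or] at hcon
        rcases n2_of_two hp.1 hq.1 ((h x y hp.1).symm.trans (h x' y' hq.1)) hcon.1 hcon.2 with h1 | h1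
        · exact hp.2.1 h1
        · exact hp.2.2 h1
      exact (Finset.card_le_card hsub0).trans Finset.card_le_two
  have hc : (MS G k).card ≤ S1.card + S2.card + S0.card :=
    (Finset.card_le_card hsub).trans ((Finset.card_union_le _ _).trans
      (Nat.add_le_add_right (Finset.card_union_le _ _) _))
  have hc2 : (MS G k).card ≤ 2 * S1.card + 2 := by omega
  calc (MS G k).card * k ≤ (2 * S1.card + 2) * k := Nat.mul_le_mul_right k hc2
    _ = 2 * k + 2 * (S1.card * k) := by ring
    _ ≤ _ := by omega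

end Basic

section Moments

variable {V : Type*}

/-- bridge-addability of a set of graphs on the vertex set `V` -/
def BA (A : Finset (SimpleGraph V)) : Prop :=
  ∀ G ∈ A, ∀ u v, ¬ G.Reachable u v → addE G u v ∈ A

/-- the graph obtained from a triple `(G, u, v)` -/
abbrev ad (t : SimpleGraph V × V × V) : SimpleGraph V := addE t.1 t.2.1 t.2.2

variable [Fintype V]

/-- all triples `(G, u, v)` with `G ∈ A` and `u`, `v` in different components -/
noncomputable def E0 (A : Finset (SimpleGraph V)) : Finset (SimpleGraph V × V × V) :=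
  (A ×ˢ (Finset.univ : Finset (V × V))).filter fun t => ¬ t.1.Reachable t.2.1 t.2.2

lemma mem_E0 {A : Finset (SimpleGraph V)} {t : SimpleGraph V × V × V} :
    t ∈ E0 A ↔ t.1 ∈ A ∧ ¬ t.1.Reachable t.2.1 t.2.2 := by
  simp [E0]

/-- the triples with both components of order at least `k` -/
noncomputable def E1 (A : Finset (SimpleGraph V)) (k : ℕ) : Finset (SimpleGraph V × V × V) :=
  (E0 A).filter fun t => k ≤ cs t.1 t.2.1 ∧ k ≤ cs t.1 t.2.2

lemma mem_E1 {A : Finset (SimpleGraph V)} {k : ℕ} {t : SimpleGraph V × V × V} :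
    t ∈ E1 A k ↔ t.1 ∈ A ∧ ¬ t.1.Reachable t.2.1 t.2.2 ∧ k ≤ cs t.1 t.2.1 ∧ k ≤ cs t.1 t.2.2 := by
  simp [E1, mem_E0, and_assoc]

omit [Fintype V] in
lemma ad_inj {t t' : SimpleGraph V × V × V} (h : ¬ t.1.Reachable t.2.1 t.2.2)
    (h' : ¬ t'.1.Reachable t'.2.1 t'.2.2) (h1 : ad t = ad t') (h2 : t.2 = t'.2) : t = t' := by
  obtain ⟨G, u, v⟩ := t
  obtain ⟨G', u', v'⟩ := t'
  simp only [Prod.mk.injEq] at h2
  obtain ⟨rfl, rfl⟩ := h2
  simp only [ad] at h1 h h'
  have := delE_addE h
  rw [h1, delE_addE h'] at this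
  rw [this]

/-- transfer: triples with `ad t` in `B` and pair in the set `N (ad t)` -/
lemma card_transfer {A B : Finset (SimpleGraph V)} (S : Finset (SimpleGraph V × V × V))
    (N : SimpleGraph V → Finset (V × V)) (hS : S ⊆ E0 A) (hB : ∀ t ∈ S, ad t ∈ B)
    (hN : ∀ t ∈ S, t.2 ∈ N (ad t)) : S.card ≤ ∑ G ∈ B, (N G).card := by
  rw [Finset.card_eq_sum_card_fiberwise (f := ad) (t := B) hB]
  apply Finset.sum_le_sum
  intro G _
  apply Finset.card_le_card_of_injOn (fun t => t.2)
  · intro t ht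
    simp only [Finset.coe_filter, Set.mem_ofPred_eq] at ht
    have := hN t ht.1
    rw [ht.2] at this
    exact this
  · intro t ht t' ht' heq
    simp only [Finset.coe_filter, Set.mem_ofPred_eq] at ht ht'
    exact ad_inj (mem_E0.1 (hS ht.1)).2 (mem_E0.1 (hS ht'.1)).2 (ht.2.trans ht'.2.symm) heq

/-- the ordered bridges -/
noncomputable def brs (G : SimpleGraph V) : Finset (V × V) :=
  Finset.univ.filter fun p : V × V => isBr G p.1 p.2

lemma card_transfer_br {A B : Finset (SimpleGraph V)} (S : Finset (SimpleGraph V × V × V))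
    (hS : S ⊆ E0 A) (hB : ∀ t ∈ S, ad t ∈ B) :
    S.card ≤ B.card * (2 * Fintype.card V) := by
  refine (card_transfer S brs hS hB ?_).trans ?_
  · intro t ht
    simp only [brs, Finset.mem_filter, Finset.mem_univ, true_and]
    exact isBr_addE (mem_E0.1 (hS ht)).2
  · rw [← smul_eq_mul, ← Finset.sum_const]
    exact Finset.sum_le_sum fun G _ => card_bridges G

/-- number of ordered pairs in different components -/
noncomputable def na (G : SimpleGraph V) : ℕ :=
  (Finset.univ.filter fun p : V × V => ¬ G.Reachable p.1 p.2).card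

lemma card_E0_filter (A : Finset (SimpleGraph V)) : (E0 A).card = ∑ G ∈ A, na G := by
  unfold E0 na
  simp only [Finset.card_filter]
  rw [Finset.sum_product]

lemma sum_na_le {A : Finset (SimpleGraph V)} (hA : BA A) :
    ∑ G ∈ A, na G ≤ A.card * (2 * Fintype.card V) := by
  rw [← card_E0_filter]
  exact card_transfer_br (A := A) (E0 A) (Finset.Subset.refl _)
    (fun t ht => hA _ (mem_E0.1 ht).1 _ _ (mem_E0.1 ht).2)

lemma na_eq (G : SimpleGraph V) : na G = ∑ u, (Fintype.card V - cs G u) := by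
  unfold na
  simp only [Finset.card_filter]
  rw [Fintype.sum_prod_type]
  apply Finset.sum_congr rfl
  intro u _
  rw [← Finset.card_filter]
  unfold cs
  have := Finset.card_filter_add_card_filter_not (s := (Finset.univ : Finset V)) (p := fun w => G.Reachable u w)
  rw [Finset.card_univ] at this
  have h2 : (Finset.univ.filter fun i => ¬ G.Reachable (u, i).1 (u, i).2).card =
    (Finset.univ.filter fun w => ¬ G.Reachable u w).card := by congr
  omega

/-- number of vertices outside a largest component -/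
noncomputable def fr (G : SimpleGraph V) : ℕ := Fintype.card V - Finset.univ.sup (cs G)

lemma sup_cs_le (G : SimpleGraph V) : Finset.univ.sup (cs G) ≤ Fintype.card V :=
  Finset.sup_le fun u _ => cs_le G u

lemma fr_le (G : SimpleGraph V) : fr G ≤ Fintype.card V := Nat.sub_le _ _

lemma na_ge1 (G : SimpleGraph V) : Fintype.card V * fr G ≤ na G := by
  rw [na_eq, ← Finset.card_univ, ← smul_eq_mul, ← Finset.sum_const]
  apply Finset.sum_le_sum
  intro u _
  have : cs G u ≤ Finset.univ.sup (cs G) := Finset.le_sup (Finset.mem_univ u)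
  unfold fr
  rw [Finset.card_univ]
  omega

lemma na_ge2 [Nonempty V] (G : SimpleGraph V) : 2 * (fr G * (Fintype.card V - fr G)) ≤ na G := by
  obtain ⟨u0, -, hu0⟩ := Finset.exists_mem_eq_sup (Finset.univ : Finset V) Finset.univ_nonempty (cs G)
  set C := Finset.univ.filter fun w => G.Reachable u0 w with hC
  have hCcard : C.card = Fintype.card V - fr G := by
    have h1 : C.card = cs G u0 := rfl
    have h2 := sup_cs_le G
    unfold fr
    omega
  have hCc : (Finset.univ \ C).card = fr G := by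
    rw [Finset.card_sdiff_of_subset (Finset.subset_univ _), Finset.card_univ, hCcard]
    have := fr_le G
    omega
  have h1 : (C ×ˢ (Finset.univ \ C)) ∪ ((Finset.univ \ C) ×ˢ C) ⊆
      Finset.univ.filter fun p : V × V => ¬ G.Reachable p.1 p.2 := by
    rintro ⟨a, b⟩ hp
    simp only [hC, Finset.mem_union, Finset.mem_product, Finset.mem_filter, Finset.mem_univ, true_and,
      Finset.mem_sdiff] at hp
    simp only [Finset.mem_filter, Finset.mem_univ, true_and]
    rcases hp with ⟨h1, h2⟩ | ⟨h1, h2⟩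
    · exact fun h => h2 (h1.trans h)
    · exact fun h => h1 (h2.trans h.symm)
  have h2 : Disjoint (C ×ˢ (Finset.univ \ C)) ((Finset.univ \ C) ×ˢ C) := by
    rw [Finset.disjoint_left]
    rintro ⟨a, b⟩ hp hq
    rw [Finset.mem_product] at hp hq
    have := (Finset.mem_sdiff.1 hq.1).2
    exact this hp.1
  have h3 := Finset.card_le_card h1
  rw [Finset.card_union_of_disjoint h2, Finset.card_product, Finset.card_product, hCcard, hCc] at h3
  unfold na
  calc 2 * (fr G * (Fintype.card V - fr G)) =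
      (Fintype.card V - fr G) * fr G + fr G * (Fintype.card V - fr G) := by ring
    _ ≤ _ := h3

lemma na_add {G : SimpleGraph V} {u v : V} :
    na G ≤ na (addE G u v) + 2 * (cs G u * cs G v) := by
  set Cu := Finset.univ.filter fun w => G.Reachable u w
  set Cv := Finset.univ.filter fun w => G.Reachable v w
  have hsub : (Finset.univ.filter fun p : V × V => ¬ G.Reachable p.1 p.2) ⊆
      (Finset.univ.filter fun p : V × V => ¬ (addE G u v).Reachable p.1 p.2) ∪
      ((Cu ×ˢ Cv) ∪ (Cv ×ˢ Cu)) := by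
    rintro ⟨a, b⟩ hp
    simp only [Finset.mem_filter, Finset.mem_univ, true_and] at hp
    simp only [Cu, Cv, Finset.mem_union, Finset.mem_product, Finset.mem_filter, Finset.mem_univ, true_and]
    by_cases h : (addE G u v).Reachable a b
    · right
      rcases reach_addE h with h1 | ⟨h1, h2⟩ | ⟨h1, h2⟩
      · exact absurd h1 hp
      · exact Or.inl ⟨h1.symm, h2⟩
      · exact Or.inr ⟨h1.symm, h2⟩
    · exact Or.inl h
  have h3 := Finset.card_union_le (Cu ×ˢ Cv) (Cv ×ˢ Cu)
  rw [Finset.card_product, Finset.card_product] at h3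
  have h4 : Cu.card = cs G u := rfl
  have h5 : Cv.card = cs G v := rfl
  rw [h4, h5] at h3
  have h6 : cs G v * cs G u = cs G u * cs G v := Nat.mul_comm _ _
  have h1 := (Finset.card_le_card hsub).trans (Finset.card_union_le _ _)
  calc na G ≤ _ := h1
    _ ≤ na (addE G u v) + (cs G u * cs G v + cs G v * cs G u) := by
      refine Nat.add_le_add (le_of_eq ?_) h3
      unfold na
      congr
    _ = _ := by rw [h6]; ring

/-- first moment: `n * Σ fr ≤ 2 n |A|` -/
lemma sum_fr_le [Nonempty V] {A : Finset (SimpleGraph V)} (hA : BA A) : ∑ G ∈ A, fr G ≤ 2 * A.card := by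
  have h1 : Fintype.card V * ∑ G ∈ A, fr G ≤ A.card * (2 * Fintype.card V) := by
    rw [Finset.mul_sum]
    exact (Finset.sum_le_sum fun G _ => na_ge1 G).trans (sum_na_le hA)
  have h2 : 0 < Fintype.card V := Fintype.card_pos
  have h3 : Fintype.card V * ∑ G ∈ A, fr G ≤ Fintype.card V * (2 * A.card) := by
    calc _ ≤ _ := h1
      _ = _ := by ring
  exact Nat.le_of_mul_le_mul_left h3 h2

/-- `n Σ fr ≤ n |A| + Σ fr²` -/
lemma sum_fr_sq [Nonempty V] {A : Finset (SimpleGraph V)} (hA : BA A) :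
    Fintype.card V * ∑ G ∈ A, fr G ≤ Fintype.card V * A.card + ∑ G ∈ A, fr G ^ 2 := by
  have h1 : ∑ G ∈ A, 2 * (fr G * (Fintype.card V - fr G)) ≤ A.card * (2 * Fintype.card V) :=
    (Finset.sum_le_sum fun G _ => na_ge2 G).trans (sum_na_le hA)
  have h2 : ∑ G ∈ A, (fr G * (Fintype.card V - fr G)) + ∑ G ∈ A, fr G ^ 2 =
      Fintype.card V * ∑ G ∈ A, fr G := by
    rw [← Finset.sum_add_distrib, Finset.mul_sum]
    apply Finset.sum_congr rfl
    intro G _
    have h3 := fr_le G
    obtain ⟨c, hc⟩ := Nat.exists_eq_add_of_le h3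
    rw [hc, Nat.add_sub_cancel_left]
    ring
  rw [← Finset.mul_sum] at h1
  have h4 : ∑ G ∈ A, (fr G * (Fintype.card V - fr G)) ≤ Fintype.card V * A.card := by
    have : 2 * ∑ G ∈ A, (fr G * (Fintype.card V - fr G)) ≤ 2 * (Fintype.card V * A.card) := by
      calc _ ≤ _ := h1
        _ = _ := by ring
    omega
  omega

/-- graphs with two components of order at least `k` -/
noncomputable def Y (A : Finset (SimpleGraph V)) (k : ℕ) : Finset (SimpleGraph V) :=
  A.filter fun G => ∃ u v, ¬ G.Reachable u v ∧ k ≤ cs G u ∧ k ≤ cs G v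

/-- graphs with large fragment but without two large components -/
noncomputable def Z (A : Finset (SimpleGraph V)) (f k : ℕ) : Finset (SimpleGraph V) :=
  A.filter fun G => f ≤ fr G ∧ ∀ u v, ¬ G.Reachable u v → ¬ (k ≤ cs G u ∧ k ≤ cs G v)

lemma card_Z [Nonempty V] {A : Finset (SimpleGraph V)} (hA : BA A) {f k : ℕ} (hk : 4 * k ≤ f) :
    (Z A f k).card * (f * f) ≤ 8 * A.card := by
  set n := Fintype.card V with hn
  have hn0 : 0 < n := Fintype.card_pos
  set H := A.filter fun G => n * f ≤ 2 * na G with hH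
  have h1 : (Z A f k).card * (n * f) ≤ (E0 (Z A f k)).card := by
    rw [card_E0_filter, ← smul_eq_mul, ← Finset.sum_const]
    apply Finset.sum_le_sum
    intro G hG
    simp only [Z, Finset.mem_filter] at hG
    exact (Nat.mul_le_mul_left n hG.2.1).trans (na_ge1 G)
  have h2 : (E0 (Z A f k)).card ≤ H.card * (2 * n) := by
    apply card_transfer_br (A := Z A f k) _ (Finset.Subset.refl _)
    intro t ht
    rw [mem_E0] at ht
    obtain ⟨ht1, ht2⟩ := ht
    simp only [Z, Finset.mem_filter] at ht1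
    obtain ⟨hA1, hf, hsm⟩ := ht1
    simp only [hH, Finset.mem_filter]
    refine ⟨hA _ hA1 _ _ ht2, ?_⟩
    have h3 := hsm _ _ ht2
    have h4 : cs t.1 t.2.1 * cs t.1 t.2.2 ≤ k * n := by
      have hc1 : cs t.1 t.2.1 ≤ n := cs_le _ _
      have hc2 : cs t.1 t.2.2 ≤ n := cs_le _ _
      by_cases h5 : k ≤ cs t.1 t.2.1
      · have h6 : cs t.1 t.2.2 ≤ k := by
          by_contra h7
          exact h3 ⟨h5, by omega⟩
        rw [Nat.mul_comm]
        exact Nat.mul_le_mul h6 hc1
      · exact Nat.mul_le_mul (by omega) hc2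
    have h5 := na_add (G := t.1) (u := t.2.1) (v := t.2.2)
    have h6 : n * f ≤ na t.1 := (Nat.mul_le_mul_left n hf).trans (na_ge1 _)
    have h7 : 4 * (k * n) ≤ n * f := by
      calc 4 * (k * n) = n * (4 * k) := by ring
        _ ≤ n * f := Nat.mul_le_mul_left n hk
    simp only [ad]
    omega
  have h3 : H.card * (n * f) ≤ 4 * n * A.card := by
    have h4 : H.card * (n * f) ≤ ∑ G ∈ H, 2 * na G := by
      rw [← smul_eq_mul, ← Finset.sum_const]
      apply Finset.sum_le_sum
      intro G hG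
      simp only [hH, Finset.mem_filter] at hG
      exact hG.2
    have h5 : ∑ G ∈ H, 2 * na G ≤ ∑ G ∈ A, 2 * na G :=
      Finset.sum_le_sum_of_subset (Finset.filter_subset _ _)
    have h6 : ∑ G ∈ A, 2 * na G ≤ 2 * (A.card * (2 * n)) := by
      rw [← Finset.mul_sum]
      exact Nat.mul_le_mul_left 2 (sum_na_le hA)
    calc _ ≤ _ := h4
      _ ≤ _ := h5
      _ ≤ _ := h6
      _ = _ := by ring
  have h4 : (n * n) * ((Z A f k).card * (f * f)) ≤ (n * n) * (8 * A.card) := by
    calc (n * n) * ((Z A f k).card * (f * f)) = ((Z A f k).card * (n * f)) * (n * f) := by ring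
      _ ≤ (H.card * (2 * n)) * (n * f) := Nat.mul_le_mul_right _ (h1.trans h2)
      _ = (2 * n) * (H.card * (n * f)) := by ring
      _ ≤ (2 * n) * (4 * n * A.card) := Nat.mul_le_mul_left _ h3
      _ = _ := by ring
  exact Nat.le_of_mul_le_mul_left h4 (Nat.mul_pos hn0 hn0)

end Moments

section Large

variable {V : Type*} [Fintype V]

/-- the fibre of `E1` over `H` -/
noncomputable def fib (A : Finset (SimpleGraph V)) (k : ℕ) (H : SimpleGraph V) :
    Finset (SimpleGraph V × V × V) := (E1 A k).filter fun t => ad t = H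

lemma fib_le (A : Finset (SimpleGraph V)) (k : ℕ) (H : SimpleGraph V) :
    (fib A k H).card ≤ (MS H k).card := by
  apply Finset.card_le_card_of_injOn (fun t => t.2)
  · rintro ⟨G, u, v⟩ ht
    simp only [fib, Finset.coe_filter, Set.mem_ofPred_eq, mem_E1] at ht
    simp only [MS, Finset.coe_filter, Finset.mem_univ, true_and, Set.mem_ofPred_eq]
    obtain ⟨⟨h1, h2, h3, h4⟩, rfl⟩ := ht
    refine ⟨isBr_addE h2, ?_, ?_⟩
    · rw [delE_addE h2]; exact h3
    · rw [delE_addE h2]; exact h4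
  · intro t ht t' ht' heq
    simp only [fib, Finset.coe_filter, Set.mem_ofPred_eq, mem_E1] at ht ht'
    exact ad_inj ht.1.2.1 ht'.1.2.1 (ht.2.trans ht'.2.symm) heq

lemma MS_le (G : SimpleGraph V) (k : ℕ) : (MS G k).card ≤ 2 * Fintype.card V := by
  refine (Finset.card_le_card ?_).trans (card_bridges G)
  intro p hp
  simp only [MS, Finset.mem_filter, Finset.mem_univ, true_and] at hp ⊢
  exact hp.1

lemma ad_mem {A : Finset (SimpleGraph V)} (hA : BA A) {k : ℕ} {t : SimpleGraph V × V × V}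
    (ht : t ∈ E1 A k) : ad t ∈ A := by
  rw [mem_E1] at ht
  exact hA _ ht.1 _ _ ht.2.1

/-- Cauchy-Schwarz -/
lemma cs_ineq {A : Finset (SimpleGraph V)} (hA : BA A) (k : ℕ) :
    (E1 A k).card ^ 2 ≤ A.card * ∑ t ∈ E1 A k, (fib A k (ad t)).card := by
  have h1 : (E1 A k).card = ∑ H ∈ A, (fib A k H).card :=
    Finset.card_eq_sum_card_fiberwise (f := ad) (t := A) (fun t ht => ad_mem hA ht)
  have h2 : ∑ t ∈ E1 A k, (fib A k (ad t)).card = ∑ H ∈ A, (fib A k H).card ^ 2 := by
    rw [← Finset.sum_fiberwise_of_maps_to (s := E1 A k) (t := A) (g := ad) (fun t ht => ad_mem hA ht)]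
    apply Finset.sum_congr rfl
    intro H _
    have : ∑ t ∈ (E1 A k).filter (fun t => ad t = H), (fib A k (ad t)).card =
        ∑ t ∈ (E1 A k).filter (fun t => ad t = H), (fib A k H).card := by
      apply Finset.sum_congr rfl
      intro t ht
      rw [(Finset.mem_filter.1 ht).2]
    rw [this, Finset.sum_const, smul_eq_mul, sq]
    rfl
  rw [h1, h2]
  exact sq_sum_le_card_mul_sum_sq

/-- triples where there is a third large component -/
noncomputable def E3 (A : Finset (SimpleGraph V)) (k : ℕ) : Finset (SimpleGraph V × V × V) :=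
  (E1 A k).filter fun t => ∃ w, k ≤ cs t.1 w ∧ ¬ t.1.Reachable w t.2.1 ∧ ¬ t.1.Reachable w t.2.2

/-- `N2` vertices in the component of `u` -/
noncomputable def c2 (G : SimpleGraph V) (k : ℕ) (u : V) : ℕ :=
  (Finset.univ.filter fun x => G.Reachable u x ∧ N2 G k x).card

lemma good_bound {A : Finset (SimpleGraph V)} {k1 k2 : ℕ} (hk : k2 ≤ k1)
    {t : SimpleGraph V × V × V} (ht : t ∈ E1 A k1) (hnt : t ∉ E3 A k1) :
    (fib A k1 (ad t)).card * k1 ≤ (2 * k1 + 2 * Fintype.card V * (4 * k2 + 2)) +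
      2 * Fintype.card V * (c2 t.1 k2 t.2.1 + c2 t.1 k2 t.2.2) := by
  obtain ⟨G, u, v⟩ := t
  have ht' := ht
  rw [mem_E1] at ht'
  obtain ⟨-, hne, hu, hv⟩ := ht'
  simp only at hne hu hv
  have hno : ∀ w, k1 ≤ cs G w → G.Reachable w u ∨ G.Reachable w v := by
    intro w hw
    by_contra hcon
    push Not at hcon
    exact hnt (Finset.mem_filter.2 ⟨ht, w, hw, hcon.1, hcon.2⟩)
  have h1 : ∀ x y, Big (addE G u v) k1 x y → (addE G u v).Reachable u x := by
    intro x y hb
    have huv : (addE G u v).Reachable u v := (isBr_addE hne).1.reachable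
    by_contra hcon
    have h2 : cs (addE G u v) x ≤ cs G x := by
      apply Finset.card_le_card
      intro w hw
      simp only [Finset.mem_filter, Finset.mem_univ, true_and] at hw ⊢
      rcases reach_addE hw with h1 | ⟨h1, -⟩ | ⟨h1, -⟩
      · exact h1
      · exact absurd (h1.mono (le_addE G u v)).symm hcon
      · exact absurd (huv.trans (h1.mono (le_addE G u v)).symm) hcon
    have h3 : k1 ≤ cs G x := (hb.2.1.trans (cs_mono (delE_le _ _ _) _)).trans h2
    rcases hno x h3 with h4 | h4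
    · exact hcon (h4.mono (le_addE G u v)).symm
    · exact hcon (huv.trans (h4.mono (le_addE G u v)).symm)
  have h2 := card_MS u h1
  have h3 := card_N2_addE hne hk hno
  have h4 := fib_le A k1 (addE G u v)
  simp only [ad]
  calc (fib A k1 (addE G u v)).card * k1 ≤ (MS (addE G u v) k1).card * k1 := Nat.mul_le_mul_right _ h4
    _ ≤ 2 * k1 + 2 * ((Finset.univ.filter fun x => N2 (addE G u v) k1 x).card * Fintype.card V) := h2
    _ ≤ 2 * k1 + 2 * ((c2 G k2 u + c2 G k2 v + (4 * k2 + 2)) * Fintype.card V) := by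
      apply Nat.add_le_add_left
      apply Nat.mul_le_mul_left
      apply Nat.mul_le_mul_right
      exact h3
    _ = _ := by ring

lemma bad_bound {A : Finset (SimpleGraph V)} {k1 : ℕ} (t : SimpleGraph V × V × V) :
    (fib A k1 (ad t)).card * k1 ≤ 2 * Fintype.card V * k1 :=
  Nat.mul_le_mul_right _ ((fib_le _ _ _).trans (MS_le _ _))

/-- symmetry of `E1` -/
lemma sum_c2_symm (A : Finset (SimpleGraph V)) (k1 k2 : ℕ) :
    ∑ t ∈ E1 A k1, c2 t.1 k2 t.2.2 = ∑ t ∈ E1 A k1, c2 t.1 k2 t.2.1 := by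
  apply Finset.sum_nbij' (fun t => (t.1, t.2.2, t.2.1)) (fun t => (t.1, t.2.2, t.2.1))
  · intro t ht
    rw [mem_E1] at ht ⊢
    exact ⟨ht.1, fun h => ht.2.1 h.symm, ht.2.2.2, ht.2.2.1⟩
  · intro t ht
    rw [mem_E1] at ht ⊢
    exact ⟨ht.1, fun h => ht.2.1 h.symm, ht.2.2.2, ht.2.2.1⟩
  · intro t _; rfl
  · intro t _; rfl
  · intro t _; rfl

/-- triples with `u` an `N2`-vertex -/
noncomputable def F2 (A : Finset (SimpleGraph V)) (k1 k2 : ℕ) : Finset (SimpleGraph V × V × V) :=
  (E1 A k1).filter fun t => N2 t.1 k2 t.2.1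

lemma sum_c2_le (A : Finset (SimpleGraph V)) (k1 k2 : ℕ) :
    ∑ t ∈ E1 A k1, c2 t.1 k2 t.2.1 ≤ (F2 A k1 k2).card * Fintype.card V := by
  have h1 : ∑ t ∈ E1 A k1, c2 t.1 k2 t.2.1 =
      ((E1 A k1 ×ˢ (Finset.univ : Finset V)).filter
        fun q => q.1.1.Reachable q.1.2.1 q.2 ∧ N2 q.1.1 k2 q.2).card := by
    rw [Finset.card_filter, Finset.sum_product]
    apply Finset.sum_congr rfl
    intro t _
    unfold c2
    rw [Finset.card_filter]
  rw [h1, ← Finset.card_univ, ← Finset.card_product]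
  apply Finset.card_le_card_of_injOn (fun q => ((q.1.1, q.2, q.1.2.2), q.1.2.1))
  · rintro ⟨⟨G, u, v⟩, x⟩ hq
    simp only [Finset.coe_filter, Finset.mem_product, Finset.mem_univ, and_true, Set.mem_ofPred_eq, mem_E1] at hq
    obtain ⟨⟨h1, h2, h3, h4⟩, h5, h6⟩ := hq
    rw [Finset.mem_coe, Finset.mem_product]
    refine ⟨?_, Finset.mem_univ _⟩
    simp only [F2, Finset.mem_filter, mem_E1]
    refine ⟨⟨h1, fun h => h2 (h5.trans h), ?_, h4⟩, h6⟩
    rw [← cs_eq h5]; exact h3
  · rintro ⟨⟨G, u, v⟩, x⟩ _ ⟨⟨G', u', v'⟩, x'⟩ _ heq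
    simp only [Prod.mk.injEq] at heq ⊢
    tauto

lemma card_F2 {A : Finset (SimpleGraph V)} (hA : BA A) {k1 k2 : ℕ} (hk : k2 ≤ k1) (hk2 : 1 ≤ k2) :
    (F2 A k1 k2).card * (k1 * k2) ≤ A.card * (Fintype.card V * Fintype.card V) := by
  set n := Fintype.card V with hn
  have h1 : (F2 A k1 k2).card ≤ ∑ H ∈ A, ∑ u ∈ Finset.univ.filter (fun x => N3 H k2 x),
      (Finset.univ.filter fun v => isBr H u v ∧ k1 ≤ cs (delE H u v) v).card := by
    have := card_transfer (A := A) (B := A) (F2 A k1 k2)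
      (fun H => Finset.univ.filter fun p : V × V => N3 H k2 p.1 ∧ isBr H p.1 p.2 ∧ k1 ≤ cs (delE H p.1 p.2) p.2)
      ?_ ?_ ?_
    · refine this.trans (Finset.sum_le_sum fun H _ => ?_)
      rw [← Finset.card_sigma]
      apply Finset.card_le_card_of_injOn (fun p => (⟨p.1, p.2⟩ : Sigma fun _ : V => V))
      · rintro ⟨x, y⟩ hp
        simp only [Finset.coe_filter, Finset.mem_univ, true_and, Set.mem_ofPred_eq] at hp
        simp only [Finset.coe_sigma, Set.mem_sigma_iff, Finset.coe_filter, Finset.mem_univ, true_and,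
          Set.mem_ofPred_eq]
        exact hp
      · rintro ⟨x, y⟩ _ ⟨x', y'⟩ _ heq
        simp only [Sigma.mk.injEq, heq_eq_eq] at heq
        rw [heq.1, heq.2]
    · intro t ht
      simp only [F2, Finset.mem_filter, mem_E1] at ht
      rw [mem_E0]
      exact ⟨ht.1.1, ht.1.2.1⟩
    · intro t ht
      simp only [F2, Finset.mem_filter] at ht
      exact ad_mem hA ht.1
    · rintro ⟨G, u, v⟩ ht
      simp only [F2, Finset.mem_filter, mem_E1] at ht
      obtain ⟨⟨-, h2, h3, h4⟩, h5⟩ := ht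
      simp only [Finset.mem_filter, Finset.mem_univ, true_and, ad]
      refine ⟨n3_of h2 hk h4 h5, isBr_addE h2, ?_⟩
      rw [delE_addE h2]; exact h4
  have h2 : ∀ H : SimpleGraph V, (∑ u ∈ Finset.univ.filter (fun x => N3 H k2 x),
      (Finset.univ.filter fun v => isBr H u v ∧ k1 ≤ cs (delE H u v) v).card) * (k1 * k2) ≤ n * n := by
    intro H
    calc _ = (∑ u ∈ Finset.univ.filter (fun x => N3 H k2 x),
      (Finset.univ.filter fun v => isBr H u v ∧ k1 ≤ cs (delE H u v) v).card * k1) * k2 := by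
          rw [Finset.sum_mul, Finset.sum_mul]
          apply Finset.sum_congr rfl
          intro u _
          ring
      _ ≤ (∑ u ∈ Finset.univ.filter (fun x => N3 H k2 x), n) * k2 := by
          apply Nat.mul_le_mul_right
          exact Finset.sum_le_sum fun u _ => card_nbr H k1 u
      _ = ((Finset.univ.filter (fun x => N3 H k2 x)).card * k2) * n := by
          rw [Finset.sum_const, smul_eq_mul]
          ring
      _ ≤ n * n := Nat.mul_le_mul_right _ (card_N3 H k2 hk2)
  calc (F2 A k1 k2).card * (k1 * k2) ≤ (∑ H ∈ A, ∑ u ∈ Finset.univ.filter (fun x => N3 H k2 x),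
      (Finset.univ.filter fun v => isBr H u v ∧ k1 ≤ cs (delE H u v) v).card) * (k1 * k2) :=
        Nat.mul_le_mul_right _ h1
    _ = ∑ H ∈ A, ((∑ u ∈ Finset.univ.filter (fun x => N3 H k2 x),
      (Finset.univ.filter fun v => isBr H u v ∧ k1 ≤ cs (delE H u v) v).card) * (k1 * k2)) := by
        rw [Finset.sum_mul]
    _ ≤ ∑ H ∈ A, n * n := Finset.sum_le_sum fun H _ => h2 H
    _ = _ := by rw [Finset.sum_const, smul_eq_mul]

/-- graphs with three large components -/
noncomputable def Y3 (A : Finset (SimpleGraph V)) (k : ℕ) : Finset (SimpleGraph V) :=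
  A.filter fun G => ∃ u v w, ¬ G.Reachable u v ∧ ¬ G.Reachable u w ∧ ¬ G.Reachable v w ∧
    k ≤ cs G u ∧ k ≤ cs G v ∧ k ≤ cs G w

lemma card_Y (A : Finset (SimpleGraph V)) (k : ℕ) : (Y A k).card * (k * k) ≤ (E1 A k).card := by
  have h1 : (E1 A k).card = ∑ G ∈ A, ((E1 A k).filter fun t => t.1 = G).card :=
    Finset.card_eq_sum_card_fiberwise (f := fun t : SimpleGraph V × V × V => t.1) (t := A) (fun t ht => by
      have := (mem_E1.1 ht).1
      exact this)
  rw [h1]
  have h2 : ∑ G ∈ Y A k, ((E1 A k).filter fun t => t.1 = G).card ≤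
      ∑ G ∈ A, ((E1 A k).filter fun t => t.1 = G).card :=
    Finset.sum_le_sum_of_subset (Finset.filter_subset _ _)
  refine le_trans ?_ h2
  rw [← smul_eq_mul, ← Finset.sum_const]
  apply Finset.sum_le_sum
  intro G hG
  simp only [Y, Finset.mem_filter] at hG
  obtain ⟨hGA, u, v, huv, hu, hv⟩ := hG
  set Cu := Finset.univ.filter fun w => G.Reachable u w with hCu
  set Cv := Finset.univ.filter fun w => G.Reachable v w with hCv
  have h3 : k * k ≤ (Cu ×ˢ Cv).card := by
    rw [Finset.card_product]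
    exact Nat.mul_le_mul hu hv
  refine h3.trans ?_
  apply Finset.card_le_card_of_injOn (fun p => (G, p.1, p.2))
  · rintro ⟨a, b⟩ hp
    simp only [Finset.coe_product, Set.mem_prod, Finset.mem_coe, hCu, hCv, Finset.mem_filter,
      Finset.mem_univ, true_and] at hp
    simp only [Finset.coe_filter, Set.mem_ofPred_eq, mem_E1, and_true]
    refine ⟨hGA, fun h => huv ((hp.1.trans h).trans hp.2.symm), ?_, ?_⟩
    · rw [← cs_eq hp.1]; exact hu
    · rw [← cs_eq hp.2]; exact hv
  · rintro ⟨a, b⟩ _ ⟨a', b'⟩ _ heq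
    simp only [Prod.mk.injEq, true_and] at heq
    rw [heq.1, heq.2]

lemma card_Y3 {A : Finset (SimpleGraph V)} (hA : BA A) (k : ℕ) :
    (Y3 A k).card * (k * k) ≤ (Y A k).card * (2 * Fintype.card V) := by
  set S := (E1 (Y3 A k) k).filter fun t => ∃ w, k ≤ cs t.1 w ∧ ¬ t.1.Reachable w t.2.1 ∧ ¬ t.1.Reachable w t.2.2
    with hS
  have h1 : S.card ≤ (Y A k).card * (2 * Fintype.card V) := by
    apply card_transfer_br (A := Y3 A k)
    · intro t ht
      simp only [hS, Finset.mem_filter, mem_E1] at ht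
      rw [mem_E0]
      exact ⟨ht.1.1, ht.1.2.1⟩
    · rintro ⟨G, u, v⟩ ht
      simp only [hS, Finset.mem_filter, mem_E1] at ht
      obtain ⟨⟨h1, h2, h3, h4⟩, w, hw, hwu, hwv⟩ := ht
      simp only [Y3, Finset.mem_filter] at h1
      simp only [ad, Y, Finset.mem_filter]
      refine ⟨hA _ h1.1 _ _ h2, u, w, ?_, h3.trans (cs_mono (le_addE _ _ _) _),
        hw.trans (cs_mono (le_addE _ _ _) _)⟩
      intro h
      rcases reach_addE h with h5 | ⟨-, h5⟩ | ⟨h5, -⟩
      · exact hwu h5.symm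
      · exact hwv h5.symm
      · exact h2 h5
  refine le_trans ?_ h1
  have h2 : S.card = ∑ G ∈ Y3 A k, (S.filter fun t => t.1 = G).card :=
    Finset.card_eq_sum_card_fiberwise (f := fun t : SimpleGraph V × V × V => t.1) (t := Y3 A k) (fun t ht => by
      have := (mem_E1.1 (Finset.mem_filter.1 ht).1).1
      exact this)
  rw [h2, ← smul_eq_mul, ← Finset.sum_const]
  apply Finset.sum_le_sum
  intro G hG
  have hG' := hG
  simp only [Y3, Finset.mem_filter] at hG
  obtain ⟨hGA, u, v, w, huv, huw, hvw, hu, hv, hw⟩ := hG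
  set Cu := Finset.univ.filter fun w => G.Reachable u w with hCu
  set Cv := Finset.univ.filter fun w => G.Reachable v w with hCv
  have h3 : k * k ≤ (Cu ×ˢ Cv).card := by
    rw [Finset.card_product]
    exact Nat.mul_le_mul hu hv
  refine h3.trans ?_
  apply Finset.card_le_card_of_injOn (fun p => (G, p.1, p.2))
  · rintro ⟨a, b⟩ hp
    simp only [Finset.coe_product, Set.mem_prod, Finset.mem_coe, hCu, hCv, Finset.mem_filter,
      Finset.mem_univ, true_and] at hp
    simp only [Finset.coe_filter, Set.mem_ofPred_eq, hS, Finset.mem_filter, mem_E1, and_true]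
    refine ⟨⟨hG', fun h => huv ((hp.1.trans h).trans hp.2.symm), ?_, ?_⟩, w, hw, ?_, ?_⟩
    · rw [← cs_eq hp.1]; exact hu
    · rw [← cs_eq hp.2]; exact hv
    · exact fun h => huw (hp.1.trans h.symm)
    · exact fun h => hvw (hp.2.trans h.symm)
  · rintro ⟨a, b⟩ _ ⟨a', b'⟩ _ heq
    simp only [Prod.mk.injEq, true_and] at heq
    rw [heq.1, heq.2]

lemma card_E3 {A : Finset (SimpleGraph V)} (k : ℕ) :
    (E3 A k).card ≤ (Y3 A k).card * (Fintype.card V * Fintype.card V) := by
  have h1 : (Y3 A k).card * (Fintype.card V * Fintype.card V) =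
      (Y3 A k ×ˢ (Finset.univ : Finset (V × V))).card := by
    rw [Finset.card_product, Finset.card_univ, Fintype.card_prod]
  rw [h1]
  apply Finset.card_le_card
  rintro ⟨G, u, v⟩ ht
  simp only [E3, Finset.mem_filter, mem_E1] at ht
  obtain ⟨⟨h1, h2, h3, h4⟩, w, hw, hwu, hwv⟩ := ht
  rw [Finset.mem_product]
  refine ⟨?_, Finset.mem_univ _⟩
  simp only [Y3, Finset.mem_filter]
  exact ⟨h1, u, v, w, h2, fun h => hwu h.symm, fun h => hwv h.symm, h3, h4, hw⟩

/-- the main inequality for `W = |E1|` -/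
lemma main_sum {A : Finset (SimpleGraph V)} {k1 k2 : ℕ} (hk : k2 ≤ k1) :
    (∑ t ∈ E1 A k1, (fib A k1 (ad t)).card) * k1 ≤
      (E1 A k1).card * (2 * k1 + 2 * Fintype.card V * (4 * k2 + 2)) +
      4 * Fintype.card V * ((F2 A k1 k2).card * Fintype.card V) +
      (E3 A k1).card * (2 * Fintype.card V * k1) := by
  set n := Fintype.card V with hn
  have h1 : ∀ t ∈ E1 A k1, (fib A k1 (ad t)).card * k1 ≤
      ((2 * k1 + 2 * n * (4 * k2 + 2)) + 2 * n * (c2 t.1 k2 t.2.1 + c2 t.1 k2 t.2.2)) +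
      (if t ∈ E3 A k1 then 2 * n * k1 else 0) := by
    intro t ht
    by_cases h : t ∈ E3 A k1
    · rw [if_pos h]
      exact (bad_bound t).trans (Nat.le_add_left _ _)
    · rw [if_neg h]
      exact good_bound hk ht h
  have h2 : ∑ t ∈ E1 A k1, (if t ∈ E3 A k1 then 2 * n * k1 else 0) = (E3 A k1).card * (2 * n * k1) := by
    rw [← Finset.sum_filter, Finset.sum_const, smul_eq_mul]
    congr 2
    ext t
    simp only [E3, Finset.mem_filter]
    tauto
  have h3 : ∑ t ∈ E1 A k1, 2 * n * (c2 t.1 k2 t.2.1 + c2 t.1 k2 t.2.2) ≤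
      4 * n * ((F2 A k1 k2).card * n) := by
    rw [← Finset.mul_sum, Finset.sum_add_distrib, sum_c2_symm]
    have := sum_c2_le A k1 k2
    calc _ ≤ 2 * n * ((F2 A k1 k2).card * n + (F2 A k1 k2).card * n) := by
          apply Nat.mul_le_mul_left
          exact Nat.add_le_add this this
      _ = _ := by ring
  calc (∑ t ∈ E1 A k1, (fib A k1 (ad t)).card) * k1 = ∑ t ∈ E1 A k1, (fib A k1 (ad t)).card * k1 := by
        rw [Finset.sum_mul]
    _ ≤ ∑ t ∈ E1 A k1, (((2 * k1 + 2 * n * (4 * k2 + 2)) + 2 * n * (c2 t.1 k2 t.2.1 + c2 t.1 k2 t.2.2)) +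
      (if t ∈ E3 A k1 then 2 * n * k1 else 0)) := Finset.sum_le_sum h1
    _ = (E1 A k1).card * (2 * k1 + 2 * n * (4 * k2 + 2)) +
        ∑ t ∈ E1 A k1, 2 * n * (c2 t.1 k2 t.2.1 + c2 t.1 k2 t.2.2) + (E3 A k1).card * (2 * n * k1) := by
        rw [Finset.sum_add_distrib, Finset.sum_add_distrib, h2, Finset.sum_const, smul_eq_mul]
    _ ≤ _ := by
        apply Nat.add_le_add_right
        exact Nat.add_le_add_left h3 _

end Large

section Bounds

section bound

variable {V : Type*} [Fintype V]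

lemma split_sq (A : Finset (SimpleGraph V)) (f k : ℕ) :
    ∑ G ∈ A, fr G ^ 2 ≤ f * ∑ G ∈ A, fr G +
      ((Z A f k).card + (Y A k).card) * (Fintype.card V * Fintype.card V) := by
  have h1 : ∀ G ∈ A, fr G ^ 2 ≤ f * fr G +
      ((if G ∈ Z A f k then Fintype.card V * Fintype.card V else 0) +
       (if G ∈ Y A k then Fintype.card V * Fintype.card V else 0)) := by
    intro G hG
    by_cases hf : f ≤ fr G
    · have h2 : fr G ^ 2 ≤ Fintype.card V * Fintype.card V := by
        rw [sq]
        exact Nat.mul_le_mul (fr_le G) (fr_le G)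
      by_cases hY : G ∈ Y A k
      · rw [if_pos hY]
        omega
      · have hZ : G ∈ Z A f k := by
          simp only [Z, Finset.mem_filter]
          refine ⟨hG, hf, ?_⟩
          intro u v h3 h4
          exact hY (Finset.mem_filter.2 ⟨hG, u, v, h3, h4⟩)
        rw [if_pos hZ]
        omega
    · rw [sq]
      have : fr G * fr G ≤ f * fr G := Nat.mul_le_mul_right _ (by omega)
      omega
  have hZs : ∑ G ∈ A, (if G ∈ Z A f k then Fintype.card V * Fintype.card V else 0) =
      (Z A f k).card * (Fintype.card V * Fintype.card V) := by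
    rw [← Finset.sum_filter, Finset.sum_const, smul_eq_mul]
    congr 2
    ext G
    simp only [Z, Finset.mem_filter]
    tauto
  have hYs : ∑ G ∈ A, (if G ∈ Y A k then Fintype.card V * Fintype.card V else 0) =
      (Y A k).card * (Fintype.card V * Fintype.card V) := by
    rw [← Finset.sum_filter, Finset.sum_const, smul_eq_mul]
    congr 2
    ext G
    simp only [Y, Finset.mem_filter]
    tauto
  refine (Finset.sum_le_sum h1).trans ?_
  rw [Finset.sum_add_distrib, Finset.sum_add_distrib, hZs, hYs, ← Finset.mul_sum]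
  apply le_of_eq
  ring

/-- bound for a quadratic inequality -/
lemma quad {w c d : ℝ} (hc : 0 ≤ c) (hd : 0 ≤ d) (h : w ^ 2 ≤ c * w + d) : w ≤ c + √d := by
  by_contra hcon
  push Not at hcon
  have h1 : 0 ≤ √d := Real.sqrt_nonneg d
  have h2 : √d ^ 2 = d := Real.sq_sqrt hd
  nlinarith

lemma W_bound [Nonempty V] {A : Finset (SimpleGraph V)} (hA : BA A) (hne : A.Nonempty) {k1 k2 : ℕ}
    (hk : k2 ≤ k1) (hk2 : 1 ≤ k2) {n K1 K2 : ℝ} (hn : n = Fintype.card V) (hK1 : K1 = k1) (hK2 : K2 = k2) :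
    ((E1 A k1).card : ℝ) / A.card ≤
      (2 + 2 * n * (4 * K2 + 2) / K1 + 4 * n ^ 4 / K1 ^ 4) + √(4 * n ^ 4 / (K1 ^ 2 * K2)) := by
  have hn0 : 0 < n := by
    rw [hn]
    exact_mod_cast Fintype.card_pos
  have hK20 : 0 < K2 := by
    rw [hK2]
    exact_mod_cast hk2
  have hK10 : 0 < K1 := by
    rw [hK1]
    exact_mod_cast (Nat.lt_of_lt_of_le hk2 hk)
  have ha : (0 : ℝ) < A.card := by
    exact_mod_cast Finset.card_pos.2 hne
  set a : ℝ := (A.card : ℝ) with hadef
  set W : ℝ := ((E1 A k1).card : ℝ) with hW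
  set S : ℝ := ((∑ t ∈ E1 A k1, (fib A k1 (ad t)).card : ℕ) : ℝ) with hS
  set F : ℝ := ((F2 A k1 k2).card : ℝ) with hF
  set E : ℝ := ((E3 A k1).card : ℝ) with hE
  set y : ℝ := ((Y A k1).card : ℝ) with hy
  set y3 : ℝ := ((Y3 A k1).card : ℝ) with hy3
  have i1 : W ^ 2 ≤ a * S := by
    have := cs_ineq hA k1
    rw [hW, hadef, hS]
    exact_mod_cast this
  have i2 : S * K1 ≤ W * (2 * K1 + 2 * n * (4 * K2 + 2)) + 4 * n * (F * n) + E * (2 * n * K1) := by
    have := main_sum (A := A) hk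
    rw [hS, hW, hF, hE, hn, hK1, hK2]
    exact_mod_cast this
  have i3 : F * (K1 * K2) ≤ a * (n * n) := by
    have := card_F2 hA hk hk2
    rw [hF, hadef, hn, hK1, hK2]
    exact_mod_cast this
  have i4 : E ≤ y3 * (n * n) := by
    have := card_E3 (A := A) k1
    rw [hE, hy3, hn]
    exact_mod_cast this
  have i5 : y3 * (K1 * K1) ≤ y * (2 * n) := by
    have := card_Y3 hA k1
    rw [hy3, hy, hn, hK1]
    exact_mod_cast this
  have i6 : y * (K1 * K1) ≤ W := by
    have := card_Y A k1
    rw [hy, hW, hK1]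
    exact_mod_cast this
  have hW0 : 0 ≤ W := by positivity
  have hKK : 0 < K1 * K2 := mul_pos hK10 hK20
  have j3 : F ≤ a * (n * n) / (K1 * K2) := by
    rw [le_div_iff₀ hKK]; exact i3
  have j6 : y ≤ W / (K1 * K1) := by
    rw [le_div_iff₀ (mul_pos hK10 hK10)]; exact i6
  have j5 : y3 ≤ W / (K1 * K1) * (2 * n) / (K1 * K1) := by
    rw [le_div_iff₀ (mul_pos hK10 hK10)]
    exact i5.trans (mul_le_mul_of_nonneg_right j6 (by positivity))
  have j4 : E ≤ W / (K1 * K1) * (2 * n) / (K1 * K1) * (n * n) :=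
    i4.trans (mul_le_mul_of_nonneg_right j5 (by positivity))
  have j2 : S ≤ (2 + 2 * n * (4 * K2 + 2) / K1 + 4 * n ^ 4 / K1 ^ 4) * W +
      a * (4 * n ^ 4 / (K1 ^ 2 * K2)) := by
    have k1' : 4 * n * (F * n) ≤ 4 * n * (a * (n * n) / (K1 * K2) * n) := by
      apply mul_le_mul_of_nonneg_left _ (by positivity)
      exact mul_le_mul_of_nonneg_right j3 hn0.le
    have k2' : E * (2 * n * K1) ≤ W / (K1 * K1) * (2 * n) / (K1 * K1) * (n * n) * (2 * n * K1) :=
      mul_le_mul_of_nonneg_right j4 (by positivity)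
    have k3 : S * K1 ≤ ((2 + 2 * n * (4 * K2 + 2) / K1 + 4 * n ^ 4 / K1 ^ 4) * W +
      a * (4 * n ^ 4 / (K1 ^ 2 * K2))) * K1 := by
      have : ((2 + 2 * n * (4 * K2 + 2) / K1 + 4 * n ^ 4 / K1 ^ 4) * W +
        a * (4 * n ^ 4 / (K1 ^ 2 * K2))) * K1 = W * (2 * K1 + 2 * n * (4 * K2 + 2)) +
        4 * n * (a * (n * n) / (K1 * K2) * n) +
        W / (K1 * K1) * (2 * n) / (K1 * K1) * (n * n) * (2 * n * K1) := by
        field_simp
        ring
      rw [this]
      linarith
    exact le_of_mul_le_mul_right k3 hK10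
  apply quad (by positivity) (by positivity)
  have m1 : W ^ 2 ≤ a * ((2 + 2 * n * (4 * K2 + 2) / K1 + 4 * n ^ 4 / K1 ^ 4) * W +
      a * (4 * n ^ 4 / (K1 ^ 2 * K2))) := i1.trans (mul_le_mul_of_nonneg_left j2 ha.le)
  rw [div_pow, div_le_iff₀ (by positivity)]
  calc W ^ 2 ≤ _ := m1
    _ = _ := by
      field_simp

/-- the quantitative bound -/
lemma mean_bound [Nonempty V] {A : Finset (SimpleGraph V)} (hA : BA A) (hne : A.Nonempty) {k1 k2 : ℕ}
    (hk : k2 ≤ k1) (hk2 : 1 ≤ k2) {n K1 K2 : ℝ} (hn : n = Fintype.card V) (hK1 : K1 = k1) (hK2 : K2 = k2) :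
    (∑ G ∈ A, (fr G : ℝ)) / A.card ≤ 1 + 8 * K1 / n + n / (2 * K1 ^ 2) +
      n * ((2 + 2 * n * (4 * K2 + 2) / K1 + 4 * n ^ 4 / K1 ^ 4) + √(4 * n ^ 4 / (K1 ^ 2 * K2))) / K1 ^ 2 := by
  have hn0 : 0 < n := by
    rw [hn]
    exact_mod_cast Fintype.card_pos
  have hK20 : 0 < K2 := by
    rw [hK2]
    exact_mod_cast hk2
  have hK10 : 0 < K1 := by
    rw [hK1]
    exact_mod_cast (Nat.lt_of_lt_of_le hk2 hk)
  have ha : (0 : ℝ) < A.card := by
    exact_mod_cast Finset.card_pos.2 hne
  have hWb := W_bound hA hne hk hk2 hn hK1 hK2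
  set B : ℝ := (2 + 2 * n * (4 * K2 + 2) / K1 + 4 * n ^ 4 / K1 ^ 4) + √(4 * n ^ 4 / (K1 ^ 2 * K2)) with hB
  set a : ℝ := (A.card : ℝ) with hadef
  set W : ℝ := ((E1 A k1).card : ℝ) with hW
  set y : ℝ := ((Y A k1).card : ℝ) with hy
  set z : ℝ := ((Z A (4 * k1) k1).card : ℝ) with hz
  set s : ℝ := ∑ G ∈ A, (fr G : ℝ) with hs
  set q : ℝ := ∑ G ∈ A, (fr G : ℝ) ^ 2 with hq
  have i1 : s ≤ 2 * a := by
    have := sum_fr_le hA
    rw [hs, hadef]
    exact_mod_cast this
  have i2 : n * s ≤ n * a + q := by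
    have := sum_fr_sq hA
    rw [hs, hadef, hq, hn]
    exact_mod_cast this
  have i3 : q ≤ (4 * K1) * s + (z + y) * (n * n) := by
    have := split_sq A (4 * k1) k1
    rw [hq, hs, hz, hy, hn, hK1]
    exact_mod_cast this
  have i4 : z * ((4 * K1) * (4 * K1)) ≤ 8 * a := by
    have := card_Z hA (f := 4 * k1) (k := k1) le_rfl
    rw [hz, hadef, hK1]
    exact_mod_cast this
  have i5 : y * (K1 * K1) ≤ W := by
    have := card_Y A k1
    rw [hy, hW, hK1]
    exact_mod_cast this
  have j5 : y ≤ a * B / K1 ^ 2 := by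
    rw [le_div_iff₀ (by positivity)]
    have : W ≤ B * a := by
      rw [div_le_iff₀ ha] at hWb
      exact hWb
    calc y * K1 ^ 2 = y * (K1 * K1) := by ring
      _ ≤ W := i5
      _ ≤ B * a := this
      _ = _ := by ring
  have j4 : z ≤ a / (2 * K1 ^ 2) := by
    rw [le_div_iff₀ (by positivity)]
    nlinarith
  have j3 : q ≤ 8 * K1 * a + (a / (2 * K1 ^ 2) + a * B / K1 ^ 2) * (n * n) := by
    have h1 : (z + y) * (n * n) ≤ (a / (2 * K1 ^ 2) + a * B / K1 ^ 2) * (n * n) :=
      mul_le_mul_of_nonneg_right (add_le_add j4 j5) (by positivity)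
    have h2 : (4 * K1) * s ≤ (4 * K1) * (2 * a) := mul_le_mul_of_nonneg_left i1 (by positivity)
    linarith
  rw [div_le_iff₀ ha]
  have m : n * s ≤ n * ((1 + 8 * K1 / n + n / (2 * K1 ^ 2) + n * B / K1 ^ 2) * a) := by
    calc n * s ≤ n * a + (8 * K1 * a + (a / (2 * K1 ^ 2) + a * B / K1 ^ 2) * (n * n)) := by linarith
      _ = _ := by
        field_simp
        ring
  exact le_of_mul_le_mul_left m hn0

end bound

end Bounds

section Statement

/-- limit of the bound -/
lemma bound_tendsto {β δ : ℝ} (hβ : 0 < β) (hδ : 0 < δ) :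
    Tendsto (fun n : ℕ => 1 + 8 * (⌊β * n⌋₊ : ℝ) / n + n / (2 * (⌊β * n⌋₊ : ℝ) ^ 2) +
      n * ((2 + 2 * n * (4 * (⌊δ * n⌋₊ : ℝ) + 2) / (⌊β * n⌋₊ : ℝ) + 4 * n ^ 4 / (⌊β * n⌋₊ : ℝ) ^ 4) +
        √(4 * n ^ 4 / ((⌊β * n⌋₊ : ℝ) ^ 2 * (⌊δ * n⌋₊ : ℝ)))) / (⌊β * n⌋₊ : ℝ) ^ 2) atTop
      (𝓝 (1 + 8 * β + 8 * δ / β ^ 3)) := by
  have hx : Tendsto (fun n : ℕ => (⌊β * n⌋₊ : ℝ) / n) atTop (𝓝 β) :=
    (tendsto_nat_floor_mul_div_atTop hβ.le).comp tendsto_natCast_atTop_atTop
  have hy : Tendsto (fun n : ℕ => (⌊δ * n⌋₊ : ℝ) / n) atTop (𝓝 δ) :=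
    (tendsto_nat_floor_mul_div_atTop hδ.le).comp tendsto_natCast_atTop_atTop
  have hz : Tendsto (fun n : ℕ => (1 : ℝ) / n) atTop (𝓝 0) := tendsto_one_div_atTop_nhds_zero_nat
  have hβ3 : β ^ 3 ≠ 0 := by positivity
  have hβ2 : β ^ 2 ≠ 0 := by positivity
  have key : Tendsto (fun n : ℕ =>
      1 + 8 * ((⌊β * n⌋₊ : ℝ) / n) + ((1 : ℝ) / n) / (2 * ((⌊β * n⌋₊ : ℝ) / n) ^ 2) +
      ((1 : ℝ) / n) * (2 + 4 / ((⌊β * n⌋₊ : ℝ) / n) + 4 / ((⌊β * n⌋₊ : ℝ) / n) ^ 4) / ((⌊β * n⌋₊ : ℝ) / n) ^ 2 +
      8 * ((⌊δ * n⌋₊ : ℝ) / n) / ((⌊β * n⌋₊ : ℝ) / n) ^ 3 +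
      √(4 * ((1 : ℝ) / n) / (((⌊β * n⌋₊ : ℝ) / n) ^ 2 * ((⌊δ * n⌋₊ : ℝ) / n))) / ((⌊β * n⌋₊ : ℝ) / n) ^ 2) atTop
      (𝓝 (1 + 8 * β + 0 / (2 * β ^ 2) + 0 * (2 + 4 / β + 4 / β ^ 4) / β ^ 2 + 8 * δ / β ^ 3 +
        √(4 * 0 / (β ^ 2 * δ)) / β ^ 2)) := by
    refine Tendsto.add (Tendsto.add (Tendsto.add (Tendsto.add ?_ ?_) ?_) ?_) ?_
    · exact tendsto_const_nhds.add (hx.const_mul 8)
    · exact hz.div ((hx.pow 2).const_mul 2) (by positivity)
    · refine (hz.mul ?_).div (hx.pow 2) hβ2
      exact ((tendsto_const_nhds.add (tendsto_const_nhds.div hx hβ.ne')).add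
        (tendsto_const_nhds.div (hx.pow 4) (by positivity)))
    · exact (hy.const_mul 8).div (hx.pow 3) hβ3
    · refine Tendsto.div ?_ (hx.pow 2) hβ2
      apply (Real.continuous_sqrt.tendsto _).comp
      exact (hz.const_mul 4).div ((hx.pow 2).mul hy) (by positivity)
  have hlim : (1 + 8 * β + 0 / (2 * β ^ 2) + 0 * (2 + 4 / β + 4 / β ^ 4) / β ^ 2 + 8 * δ / β ^ 3 +
        √(4 * 0 / (β ^ 2 * δ)) / β ^ 2) = 1 + 8 * β + 8 * δ / β ^ 3 := by
    simp
  rw [hlim] at key
  refine key.congr' ?_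
  have e1 : ∀ᶠ n : ℕ in atTop, (0 : ℝ) < (⌊β * n⌋₊ : ℝ) / n := hx.eventually (lt_mem_nhds hβ)
  have e2 : ∀ᶠ n : ℕ in atTop, (0 : ℝ) < (⌊δ * n⌋₊ : ℝ) / n := hy.eventually (lt_mem_nhds hδ)
  filter_upwards [e1, e2, eventually_gt_atTop 0] with n h1 h2 hn
  have hn0 : (0 : ℝ) < n := by exact_mod_cast hn
  have hk1 : (0 : ℝ) < (⌊β * n⌋₊ : ℝ) := by
    by_contra hcon
    have : (⌊β * n⌋₊ : ℝ) = 0 := le_antisymm (not_lt.1 hcon) (Nat.cast_nonneg _)
    rw [this] at h1
    simp at h1
  have hk2 : (0 : ℝ) < (⌊δ * n⌋₊ : ℝ) := by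
    by_contra hcon
    have : (⌊δ * n⌋₊ : ℝ) = 0 := le_antisymm (not_lt.1 hcon) (Nat.cast_nonneg _)
    rw [this] at h2
    simp at h2
  generalize (⌊β * n⌋₊ : ℝ) = K1 at *
  generalize (⌊δ * n⌋₊ : ℝ) = K2 at *
  generalize (n : ℝ) = m at *
  have hs : √(4 * (1 / m) / ((K1 / m) ^ 2 * (K2 / m))) / (K1 / m) ^ 2 =
      m * √(4 * m ^ 4 / (K1 ^ 2 * K2)) / K1 ^ 2 := by
    have h3 : 4 * (1 / m) / ((K1 / m) ^ 2 * (K2 / m)) = (4 * m ^ 4 / (K1 ^ 2 * K2)) / m ^ 2 := by
      field_simp
    rw [h3, Real.sqrt_div' _ (by positivity), Real.sqrt_sq hn0.le]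
    field_simp
  rw [hs]
  field_simp
  ring

/-- uniform asymptotic bound -/
lemma eventually_le {ε : ℝ} (hε : 0 < ε) : ∃ N : ℕ, ∀ n : ℕ, N ≤ n → 1 ≤ n ∧
    ∀ A : Finset (SimpleGraph (Fin n)), A.Nonempty → BA A → (∑ G ∈ A, (fr G : ℝ)) / A.card ≤ 1 + ε := by
  set η := min ε 1 with hη
  have hη0 : 0 < η := lt_min hε one_pos
  have hη1 : η ≤ 1 := min_le_right _ _
  set β := η / 32 with hβdef
  have hβ : 0 < β := by positivity
  set δ := β ^ 3 * (η / 32) with hδdef
  have hδ : 0 < δ := by positivity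
  have hδβ : δ ≤ β := by
    have h1 : β ≤ 1 := by rw [hβdef]; linarith
    have h2 : β ^ 3 ≤ β := by
      calc β ^ 3 = β * (β * β) := by ring
        _ ≤ β * 1 := mul_le_mul_of_nonneg_left (mul_le_one₀ h1 hβ.le h1) hβ.le
        _ = β := mul_one β
    calc δ ≤ β ^ 3 * 1 := mul_le_mul_of_nonneg_left (by linarith) (by positivity)
      _ ≤ β := by rw [mul_one]; exact h2
  have hlt : 1 + 8 * β + 8 * δ / β ^ 3 < 1 + ε := by
    have h1 : 8 * δ / β ^ 3 = η / 4 := by
      rw [hδdef]
      field_simp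
      ring
    have h2 : η ≤ ε := min_le_left _ _
    rw [h1, hβdef]
    linarith
  have hx : Tendsto (fun n : ℕ => (⌊δ * n⌋₊ : ℝ) / n) atTop (𝓝 δ) :=
    (tendsto_nat_floor_mul_div_atTop hδ.le).comp tendsto_natCast_atTop_atTop
  have e1 : ∀ᶠ n : ℕ in atTop, (0 : ℝ) < (⌊δ * n⌋₊ : ℝ) / n := hx.eventually (lt_mem_nhds hδ)
  have e2 := (bound_tendsto hβ hδ).eventually (gt_mem_nhds hlt)
  obtain ⟨N, hN⟩ := Filter.eventually_atTop.1 ((e1.and e2).and (eventually_ge_atTop 1))
  refine ⟨N, fun n hn => ?_⟩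
  obtain ⟨⟨h1, h2⟩, h3⟩ := hN n hn
  refine ⟨h3, fun A hne hA => ?_⟩
  have hk2 : 1 ≤ ⌊δ * n⌋₊ := by
    rw [Nat.one_le_iff_ne_zero]
    intro h
    rw [h] at h1
    simp at h1
  have hk : ⌊δ * n⌋₊ ≤ ⌊β * n⌋₊ := by
    apply Nat.floor_mono
    exact mul_le_mul_of_nonneg_right hδβ (Nat.cast_nonneg n)
  have : Nonempty (Fin n) := ⟨⟨0, h3⟩⟩
  exact (mean_bound hA hne hk hk2 (n := (n : ℝ)) (by simp) rfl rfl).trans h2.le

/-- A family of graph classes, the `n`-th one consisting of graphs with vertex set `Fin n`, is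
bridge-addable if adding an edge between two vertices in different components never leaves it. -/
def BridgeAddable (𝒜 : (n : ℕ) → Set (SimpleGraph (Fin n))) : Prop :=
  ∀ n, ∀ G ∈ 𝒜 n, ∀ u v : Fin n, G.connectedComponentMk u ≠ G.connectedComponentMk v →
    G ⊔ SimpleGraph.edge u v ∈ 𝒜 n

/-- The fragment size: number of vertices minus the number of vertices of a largest component. -/
noncomputable def frag {n : ℕ} (G : SimpleGraph (Fin n)) : ℕ :=
  n - ⨆ c : G.ConnectedComponent, c.supp.ncard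

/-- The expected fragment size of a uniformly random element of `S`. -/
noncomputable def meanFrag {n : ℕ} (S : Set (SimpleGraph (Fin n))) : ℝ :=
  (∑ᶠ G ∈ S, (frag G : ℝ)) / S.ncard

lemma supp_ncard {n : ℕ} (G : SimpleGraph (Fin n)) (u : Fin n) :
    (G.connectedComponentMk u).supp.ncard = cs G u := by
  unfold cs
  rw [← Set.ncard_coe_finset]
  congr 1
  ext w
  simp only [SimpleGraph.ConnectedComponent.mem_supp_iff, SimpleGraph.ConnectedComponent.eq,
    Finset.coe_filter, Finset.mem_univ, true_and, Set.mem_ofPred_eq]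
  exact ⟨fun h => h.symm, fun h => h.symm⟩

lemma bdd {n : ℕ} (G : SimpleGraph (Fin n)) :
    BddAbove (Set.range fun c : G.ConnectedComponent => c.supp.ncard) := by
  refine ⟨n, ?_⟩
  rintro _ ⟨c, rfl⟩
  simp only
  have := Set.ncard_le_card c.supp
  simpa using this

lemma frag_eq {n : ℕ} (G : SimpleGraph (Fin n)) : frag G = fr G := by
  unfold frag fr
  rw [Fintype.card_fin]
  congr 1
  apply le_antisymm
  · rcases isEmpty_or_nonempty G.ConnectedComponent with h | h
    · rw [ciSup_of_empty]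
      exact bot_le
    · apply ciSup_le
      intro c
      induction c using SimpleGraph.ConnectedComponent.ind with
      | _ u =>
        rw [supp_ncard]
        exact Finset.le_sup (Finset.mem_univ u)
  · apply Finset.sup_le
    intro u _
    rw [← supp_ncard]
    exact le_ciSup (bdd G) (G.connectedComponentMk u)

/-- sanity check: `frag G` is the number of vertices outside any largest component -/
lemma frag_eq_of_largest {n : ℕ} (G : SimpleGraph (Fin n)) (c : G.ConnectedComponent)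
    (hc : ∀ c' : G.ConnectedComponent, c'.supp.ncard ≤ c.supp.ncard) : frag G = (c.suppᶜ).ncard := by
  unfold frag
  have : Nonempty G.ConnectedComponent := ⟨c⟩
  have h1 : ⨆ c' : G.ConnectedComponent, c'.supp.ncard = c.supp.ncard :=
    le_antisymm (ciSup_le hc) (le_ciSup (bdd G) c)
  rw [h1, Set.ncard_compl]
  simp

/-- sanity check: the family of all graphs is bridge-addable, with nonempty classes -/
lemma bridgeAddable_all : BridgeAddable (fun _ => Set.univ) ∧
    ∀ n : ℕ, 1 ≤ n → (Set.univ : Set (SimpleGraph (Fin n))).Nonempty :=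
  ⟨fun _ _ _ _ _ _ => Set.mem_univ _, fun _ _ => Set.univ_nonempty⟩

lemma meanFrag_eq {n : ℕ} (A : Finset (SimpleGraph (Fin n))) :
    meanFrag (A : Set (SimpleGraph (Fin n))) = (∑ G ∈ A, (fr G : ℝ)) / A.card := by
  unfold meanFrag
  rw [Set.ncard_coe_finset, finsum_mem_coe_finset]
  congr 1
  apply Finset.sum_congr rfl
  intro G _
  rw [frag_eq]

/-- uniform version over all nonempty bridge-addable classes of graphs of order `n` -/
theorem uniform_bound (ε : ℝ) (hε : 0 < ε) : ∃ N : ℕ, ∀ n : ℕ, N ≤ n →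
    ∀ S : Set (SimpleGraph (Fin n)), S.Nonempty →
      (∀ G ∈ S, ∀ u v : Fin n, ¬ G.Reachable u v → G ⊔ SimpleGraph.edge u v ∈ S) →
      meanFrag S ≤ 1 + ε := by
  obtain ⟨N, hN⟩ := eventually_le hε
  refine ⟨N, fun n hn S hne hS => ?_⟩
  obtain ⟨A, rfl⟩ : ∃ A : Finset (SimpleGraph (Fin n)), (A : Set (SimpleGraph (Fin n))) = S :=
    ⟨(Set.toFinite S).toFinset, Set.Finite.coe_toFinset _⟩
  rw [meanFrag_eq]
  exact (hN n hn).2 A (by simpa using hne) (fun G hG u v huv => by simpa using hS G (by simpa using hG) u v huv)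

/-- Every bridge-addable class satisfies `limsup E[frag (R_n)] ≤ 1`. -/
theorem result (𝒜 : (n : ℕ) → Set (SimpleGraph (Fin n))) (hne : ∀ n, 1 ≤ n → (𝒜 n).Nonempty)
    (hba : BridgeAddable 𝒜) :
    Filter.limsup (fun n => ((meanFrag (𝒜 n) : ℝ) : EReal)) Filter.atTop ≤ 1 := by
  apply EReal.le_of_forall_lt_iff_le.1
  intro z hz
  have hz' : (1 : ℝ) < z := by exact_mod_cast hz
  obtain ⟨N, hN⟩ := uniform_bound (z - 1) (by linarith)
  apply Filter.limsup_le_of_le
  · exact Filter.isCobounded_le_of_bot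
  · filter_upwards [Filter.eventually_ge_atTop N, Filter.eventually_ge_atTop 1] with n hn hn1
    have h1 := hN n hn (𝒜 n) (hne n hn1) (fun G hG u v huv => hba n G hG u v (fun h =>
      huv (SimpleGraph.ConnectedComponent.exact h)))
    have h2 : meanFrag (𝒜 n) ≤ z := by linarith
    exact_mod_cast h2

end Statement

end Pool.Agent.Results.MP_572a82_pr.FragmentSize
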